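import Mathlib

/-!
# Random walks on groups and probabilities of laws

Finitely supported measures are elements of `G →₀ ℝ`.
-/

set_option autoImplicit false
set_option linter.unusedSectionVars false

open Finset Filter

namespace Q27.Walk

variable {G : Type*} [Group G]

/-- The law after `n` steps of the random walk with step distribution `μ`: the `n`-th convolution
power of `μ`. -/
noncomputable def law (μ : G →₀ ℝ) : ℕ → (G →₀ ℝ)
  | 0 => Finsupp.single 1 1
  | n + 1 => (law μ n).sum fun g a => μ.sum fun h b => Finsupp.single (g * h) (a * b)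

/-- `μ` is a (finitely supported) probability measure, its support generates `G`, and
`μ 1 > 0`. -/
structure IsStep (μ : G →₀ ℝ) : Prop where
  nonneg : ∀ g, 0 ≤ μ g
  sum_eq_one : μ.sum (fun _ a => a) = 1
  generates : Subgroup.closure (μ.support : Set G) = ⊤
  one_pos : 0 < μ 1

open Classical in
/-- The probability that `d` independent `n`-step random walks with step distribution `μ` satisfy
`w = 1`, i.e. the mass of `{(g_1, …, g_d) : w(g_1, …, g_d) = 1}` for the `d`-th power of the law
after `n` steps. -/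
noncomputable def satProb (μ : G →₀ ℝ) {d : ℕ} (w : FreeGroup (Fin d)) (n : ℕ) : ℝ :=
  ∑ g ∈ Fintype.piFinset (fun _ : Fin d => (law μ n).support),
    if FreeGroup.lift g w = 1 then ∏ i, law μ n (g i) else 0

/-- The expectation of `φ` for the measure `μ`. -/
noncomputable def E (μ : G →₀ ℝ) (φ : G → ℝ) : ℝ := μ.sum fun g a => a * φ g

omit [Group G] in
theorem E_eq (μ : G →₀ ℝ) (φ : G → ℝ) : E μ φ = ∑ g ∈ μ.support, μ g * φ g := rfl

omit [Group G] in
theorem E_single (g : G) (a : ℝ) (φ : G → ℝ) : E (Finsupp.single g a) φ = a * φ g := by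
  unfold E
  rw [Finsupp.sum_single_index (by simp)]

omit [Group G] in
theorem E_add (μ ν : G →₀ ℝ) (φ : G → ℝ) : E (μ + ν) φ = E μ φ + E ν φ := by
  unfold E
  rw [Finsupp.sum_add_index' (by simp) (by intros; ring)]

omit [Group G] in
theorem E_zero (φ : G → ℝ) : E (0 : G →₀ ℝ) φ = 0 := by simp [E]

omit [Group G] in
theorem E_sum {ι : Type*} (s : Finset ι) (μ : ι → G →₀ ℝ) (φ : G → ℝ) :
    E (∑ i ∈ s, μ i) φ = ∑ i ∈ s, E (μ i) φ := by
  classical
  induction s using Finset.induction_on with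
  | empty => simp [E_zero]
  | insert i s hi ih => rw [Finset.sum_insert hi, Finset.sum_insert hi, E_add, ih]

theorem E_law_zero (μ : G →₀ ℝ) (φ : G → ℝ) : E (law μ 0) φ = φ 1 := by
  rw [law, E_single, one_mul]

theorem E_law_succ (μ : G →₀ ℝ) (n : ℕ) (φ : G → ℝ) :
    E (law μ (n + 1)) φ = E (law μ n) (fun g => E μ (fun h => φ (g * h))) := by
  rw [law, Finsupp.sum, E_sum, E_eq (law μ n)]
  refine Finset.sum_congr rfl (fun g _ => ?_)
  rw [Finsupp.sum, E_sum, E_eq μ, Finset.mul_sum]
  refine Finset.sum_congr rfl (fun h _ => ?_)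
  rw [E_single]
  ring

omit [Group G] in
/-- Integration over `G^d`. -/
theorem sum_pi_succ (ν : G →₀ ℝ) (d : ℕ) (Φ : (Fin (d + 1) → G) → ℝ) :
    ∑ g ∈ Fintype.piFinset (fun _ : Fin (d + 1) => ν.support), (∏ i, ν (g i)) * Φ g =
      E ν (fun x => ∑ g ∈ Fintype.piFinset (fun _ : Fin d => ν.support),
        (∏ i, ν (g i)) * Φ (Fin.cons x g)) := by
  classical
  rw [E_eq]
  simp_rw [Finset.mul_sum]
  rw [← Finset.sum_product']
  symm
  refine Finset.sum_bij' (fun p _ => (Fin.cons p.1 p.2 : Fin (d + 1) → G))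
    (fun g _ => (g 0, Fin.tail g)) ?_ ?_ ?_ ?_ ?_
  · rintro ⟨x, g⟩ h
    rw [Finset.mem_product] at h
    rw [Fintype.mem_piFinset]
    intro i
    refine Fin.cases ?_ (fun j => ?_) i
    · exact h.1
    · exact (Fintype.mem_piFinset.1 h.2) j
  · intro g h
    rw [Fintype.mem_piFinset] at h
    rw [Finset.mem_product]
    exact ⟨h 0, Fintype.mem_piFinset.2 (fun j => h j.succ)⟩
  · rintro ⟨x, g⟩ _
    simp
  · intro g _
    simp
  · rintro ⟨x, g⟩ _
    simp only [Fin.prod_univ_succ, Fin.cons_zero, Fin.cons_succ]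
    ring

open Classical in
theorem satProb_four (μ : G →₀ ℝ) (w : FreeGroup (Fin 4)) (n : ℕ) :
    satProb μ w n = E (law μ n) (fun x => E (law μ n) (fun y => E (law μ n) (fun z =>
      E (law μ n) (fun t => if FreeGroup.lift ![x, y, z, t] w = 1 then 1 else 0)))) := by
  unfold satProb
  have h1 : ∀ g : Fin 4 → G, (if FreeGroup.lift g w = 1 then ∏ i, law μ n (g i) else 0) =
      (∏ i, law μ n (g i)) * (if FreeGroup.lift g w = 1 then 1 else 0) := by
    intro g
    split_ifs <;> simp
  simp_rw [h1]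
  rw [sum_pi_succ]
  congr 1; funext x
  rw [sum_pi_succ (Φ := fun g => if FreeGroup.lift (Fin.cons x g : Fin 4 → G) w = 1 then 1 else 0)]
  congr 1; funext y
  rw [sum_pi_succ (Φ := fun g =>
    if FreeGroup.lift (Fin.cons x (Fin.cons y g) : Fin 4 → G) w = 1 then 1 else 0)]
  congr 1; funext z
  rw [sum_pi_succ (Φ := fun g =>
    if FreeGroup.lift (Fin.cons x (Fin.cons y (Fin.cons z g)) : Fin 4 → G) w = 1 then 1 else 0)]
  congr 1; funext t
  rw [Finset.sum_eq_single (fun i : Fin 0 => i.elim0)]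
  · simp only [Finset.univ_eq_empty, Finset.prod_empty, one_mul]
    have h2 : (Fin.cons x (Fin.cons y (Fin.cons z (Fin.cons t (fun i : Fin 0 => i.elim0)))) :
        Fin 4 → G) = ![x, y, z, t] := by
      funext i
      fin_cases i <;> rfl
    rw [h2]
  · intro b _ hb
    exact absurd (Subsingleton.elim _ _) hb
  · intro h
    exact absurd (Fintype.mem_piFinset.2 (fun i : Fin 0 => i.elim0)) h

/-! ### Monotonicity -/

section mono

variable {μ : G →₀ ℝ}

omit [Group G] in
theorem E_mono (hμ : ∀ g, 0 ≤ μ g) {φ ψ : G → ℝ} (h : ∀ g, φ g ≤ ψ g) : E μ φ ≤ E μ ψ := by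
  rw [E_eq, E_eq]
  exact Finset.sum_le_sum (fun g _ => mul_le_mul_of_nonneg_left (h g) (hμ g))

omit [Group G] in
theorem E_const (c : ℝ) : E μ (fun _ => c) = (E μ (fun _ => 1)) * c := by
  rw [E_eq, E_eq, Finset.sum_mul]
  exact Finset.sum_congr rfl (fun g _ => by ring)

omit [Group G] in
theorem E_add_fun (φ ψ : G → ℝ) : E μ (fun g => φ g + ψ g) = E μ φ + E μ ψ := by
  rw [E_eq, E_eq, E_eq, ← Finset.sum_add_distrib]
  exact Finset.sum_congr rfl (fun g _ => by ring)

omit [Group G] in
theorem E_mul_const (φ : G → ℝ) (c : ℝ) : E μ (fun g => φ g * c) = E μ φ * c := by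
  rw [E_eq, E_eq, Finset.sum_mul]
  exact Finset.sum_congr rfl (fun g _ => by ring)

omit [Group G] in
theorem E_const_mul (φ : G → ℝ) (c : ℝ) : E μ (fun g => c * φ g) = c * E μ φ := by
  rw [E_eq, E_eq, Finset.mul_sum]
  exact Finset.sum_congr rfl (fun g _ => by ring)

omit [Group G] in
theorem E_sum_fun {ι : Type*} (s : Finset ι) (φ : ι → G → ℝ) :
    E μ (fun g => ∑ i ∈ s, φ i g) = ∑ i ∈ s, E μ (φ i) := by
  simp only [E_eq, Finset.mul_sum]
  rw [Finset.sum_comm]

theorem law_nonneg (hμ : ∀ g, 0 ≤ μ g) (n : ℕ) (g : G) : 0 ≤ law μ n g := by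
  classical
  induction n generalizing g with
  | zero =>
    rw [law, Finsupp.single_apply]
    split_ifs <;> norm_num
  | succ n ih =>
    rw [law, Finsupp.sum, Finsupp.finsetSum_apply]
    refine Finset.sum_nonneg (fun x _ => ?_)
    rw [Finsupp.sum, Finsupp.finsetSum_apply]
    refine Finset.sum_nonneg (fun y _ => ?_)
    rw [Finsupp.single_apply]
    split_ifs
    · exact mul_nonneg (ih x) (hμ y)
    · exact le_rfl

theorem E_law_one (hμ : E μ (fun _ => 1) = 1) (n : ℕ) : E (law μ n) (fun _ => 1) = 1 := by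
  induction n with
  | zero => rw [E_law_zero]
  | succ n ih => rw [E_law_succ, hμ, ih]

end mono

/-! ### Uniform measures on finite families -/

section unif

variable {Ω : Type*} [Fintype Ω] [Nonempty Ω]

/-- The distribution of `σ ω` where `ω` is uniformly distributed in the finite set `Ω`. -/
noncomputable def unif (σ : Ω → G) : G →₀ ℝ :=
  ∑ ω : Ω, Finsupp.single (σ ω) ((Fintype.card Ω : ℝ)⁻¹)

omit [Group G] in
theorem E_unif (σ : Ω → G) (φ : G → ℝ) :
    E (unif σ) φ = (Fintype.card Ω : ℝ)⁻¹ * ∑ ω : Ω, φ (σ ω) := by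
  rw [unif, E_sum, Finset.mul_sum]
  exact Finset.sum_congr rfl (fun ω _ => E_single _ _ _)

omit [Group G] [Nonempty Ω] in
theorem unif_nonneg (σ : Ω → G) (g : G) : 0 ≤ unif σ g := by
  classical
  rw [unif, Finsupp.finsetSum_apply]
  refine Finset.sum_nonneg (fun ω _ => ?_)
  rw [Finsupp.single_apply]
  split_ifs
  · positivity
  · exact le_rfl

omit [Group G] in
theorem E_unif_one (σ : Ω → G) : E (unif σ) (fun _ => 1) = 1 := by
  rw [E_unif]
  simp only [Finset.sum_const, Finset.card_univ, nsmul_eq_mul, mul_one]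
  have : (Fintype.card Ω : ℝ) ≠ 0 := by exact_mod_cast Fintype.card_ne_zero
  field_simp

omit [Group G] in
theorem unif_pos (σ : Ω → G) (ω : Ω) : 0 < unif σ (σ ω) := by
  classical
  rw [unif, Finsupp.finsetSum_apply]
  refine Finset.sum_pos' (fun ω' _ => ?_) ⟨ω, Finset.mem_univ _, ?_⟩
  · rw [Finsupp.single_apply]
    split_ifs
    · positivity
    · exact le_rfl
  · rw [Finsupp.single_eq_same]
    have : (0 : ℝ) < Fintype.card Ω := by exact_mod_cast Fintype.card_pos
    positivity

omit [Group G] in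
theorem support_unif (σ : Ω → G) : ((unif σ).support : Set G) = Set.range σ := by
  classical
  ext g
  rw [Finset.mem_coe, Finsupp.mem_support_iff]
  constructor
  · intro h
    rw [unif, Finsupp.finsetSum_apply] at h
    obtain ⟨ω, _, hω⟩ := Finset.exists_ne_zero_of_sum_ne_zero h
    refine ⟨ω, ?_⟩
    by_contra hne
    rw [Finsupp.single_apply, if_neg hne] at hω
    exact hω rfl
  · rintro ⟨ω, rfl⟩
    exact (unif_pos σ ω).ne'

/-- The Markov operator. -/
noncomputable def op (σ : Ω → G) (φ : G → ℝ) (g : G) : ℝ :=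
  (Fintype.card Ω : ℝ)⁻¹ * ∑ ω : Ω, φ (g * σ ω)

theorem E_law_unif (σ : Ω → G) (n : ℕ) (φ : G → ℝ) :
    E (law (unif σ) n) φ = ((op σ)^[n] φ) 1 := by
  induction n generalizing φ with
  | zero => rw [E_law_zero]; rfl
  | succ n ih =>
    rw [E_law_succ, Function.iterate_succ_apply]
    have : (fun g => E (unif σ) (fun h => φ (g * h))) = op σ φ := by
      funext g
      rw [E_unif]
      rfl
    rw [this, ih]

theorem isStep_unif (σ : Ω → G) (hgen : Subgroup.closure (Set.range σ) = ⊤) (ω : Ω)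
    (hω : σ ω = 1) : IsStep (unif σ) where
  nonneg := unif_nonneg σ
  sum_eq_one := by
    have := E_unif_one σ
    unfold E at this
    simpa using this
  generates := by rw [support_unif]; exact hgen
  one_pos := by
    have := unif_pos σ ω
    rwa [hω] at this

end unif

end Q27.Walk
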