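import Pool.Agent.Q27.Walk.Basic

/-!
# A decaying sequence of functions on the integers
-/

set_option autoImplicit false
set_option linter.unusedSectionVars false

open Finset Filter Topology

namespace Q27.Walk

/-- Probabilities of survival for a lazy walk on `ℤ` which is killed when it stays at `0`. -/
noncomputable def hh (m : ℝ) : ℕ → ℤ → ℝ
  | 0, _ => 1
  | n + 1, q => ((if q = 0 then 0 else m * hh m n q) + hh m n (q + 1) + hh m n (q - 1)) / (m + 2)

theorem hh_zero (m : ℝ) (q : ℤ) : hh m 0 q = 1 := rfl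

theorem hh_succ (m : ℝ) (n : ℕ) (q : ℤ) : hh m (n + 1) q =
    ((if q = 0 then 0 else m * hh m n q) + hh m n (q + 1) + hh m n (q - 1)) / (m + 2) := rfl

variable {m : ℝ}

theorem hh_nonneg (hm : 0 < m) (n : ℕ) (q : ℤ) : 0 ≤ hh m n q := by
  induction n generalizing q with
  | zero => rw [hh_zero]; norm_num
  | succ n ih =>
    rw [hh_succ]
    have h1 := ih (q + 1)
    have h2 := ih (q - 1)
    have h3 : 0 ≤ (if q = 0 then 0 else m * hh m n q) := by
      split_ifs
      · exact le_rfl
      · exact mul_nonneg hm.le (ih q)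
    positivity

theorem hh_anti (hm : 0 < m) (n : ℕ) (q : ℤ) : hh m (n + 1) q ≤ hh m n q := by
  induction n generalizing q with
  | zero =>
    rw [hh_succ, hh_zero, hh_zero, hh_zero, div_le_one (by linarith)]
    split_ifs <;> linarith
  | succ n ih =>
    rw [hh_succ m (n + 1) q]
    conv_rhs => rw [hh_succ m n q]
    apply div_le_div_of_nonneg_right _ (by linarith)
    have h1 := ih (q + 1)
    have h2 := ih (q - 1)
    have h3 : (if q = 0 then 0 else m * hh m (n + 1) q) ≤ (if q = 0 then 0 else m * hh m n q) := by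
      split_ifs
      · exact le_rfl
      · exact mul_le_mul_of_nonneg_left (ih q) hm.le
    linarith

theorem hh_le_one (hm : 0 < m) (n : ℕ) (q : ℤ) : hh m n q ≤ 1 := by
  induction n with
  | zero => rw [hh_zero]
  | succ n ih => exact (hh_anti hm n q).trans ih

theorem bounded_linear {a b : ℝ} (h : ∀ k : ℕ, |a + k * b| ≤ 1) : b = 0 := by
  by_contra hb
  have hb' : 0 < |b| := abs_pos.2 hb
  obtain ⟨k, hk⟩ := exists_nat_gt ((1 + |a|) / |b|)
  have h1 := h k
  have h2 : |(k : ℝ) * b| ≤ |a + k * b| + |a| := by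
    have := abs_sub (a + k * b) a
    simpa using this
  rw [abs_mul, Nat.abs_cast] at h2
  rw [div_lt_iff₀ hb'] at hk
  linarith

theorem tendsto_hh (hm : 0 < m) (q : ℤ) : Tendsto (fun n => hh m n q) atTop (𝓝 0) := by
  set H : ℤ → ℝ := fun q => ⨅ n, hh m n q with hH
  have hbdd : ∀ q, BddBelow (Set.range (fun n => hh m n q)) := fun q =>
    ⟨0, by rintro _ ⟨n, rfl⟩; exact hh_nonneg hm n q⟩
  have hlim : ∀ q, Tendsto (fun n => hh m n q) atTop (𝓝 (H q)) := fun q =>
    tendsto_atTop_ciInf (antitone_nat_of_succ_le (fun n => hh_anti hm n q)) (hbdd q)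
  have h0 : ∀ q, 0 ≤ H q := fun q => ge_of_tendsto' (hlim q) (fun n => hh_nonneg hm n q)
  have h1 : ∀ q, H q ≤ 1 := fun q => le_of_tendsto' (hlim q) (fun n => hh_le_one hm n q)
  have hrec : ∀ q, H q = ((if q = 0 then 0 else m * H q) + H (q + 1) + H (q - 1)) / (m + 2) := by
    intro q
    have h2 : Tendsto (fun n => hh m (n + 1) q) atTop (𝓝 (H q)) :=
      (tendsto_add_atTop_iff_nat 1).2 (hlim q)
    have h3 : Tendsto (fun n => ((if q = 0 then 0 else m * hh m n q) + hh m n (q + 1) +
        hh m n (q - 1)) / (m + 2)) atTop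
        (𝓝 (((if q = 0 then 0 else m * H q) + H (q + 1) + H (q - 1)) / (m + 2))) := by
      apply Tendsto.div_const
      apply Tendsto.add _ (hlim _)
      apply Tendsto.add _ (hlim _)
      split_ifs
      · exact tendsto_const_nhds
      · exact (hlim q).const_mul m
    exact tendsto_nhds_unique h2 h3
  have hm2 : m + 2 ≠ 0 := by positivity
  have hharm : ∀ q, q ≠ 0 → 2 * H q = H (q + 1) + H (q - 1) := by
    intro q hq
    have := hrec q
    rw [if_neg hq, eq_div_iff hm2] at this
    linarith
  have hz : (m + 2) * H 0 = H 1 + H (-1) := by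
    have := hrec 0
    rw [if_pos rfl, eq_div_iff hm2] at this
    simp only [zero_add, zero_sub] at this
    linarith
  have hpos : ∀ k : ℕ, H k = H 0 + k * (H 1 - H 0) ∧ H ((k : ℤ) + 1) = H 0 + (k + 1) * (H 1 - H 0) := by
    intro k
    induction k with
    | zero => simp
    | succ k ih =>
      refine ⟨?_, ?_⟩
      · push_cast
        exact ih.2
      · have h4 := hharm ((k : ℤ) + 1) (by omega)
        rw [add_sub_cancel_right] at h4
        push_cast
        linarith [ih.1, ih.2]
  have hneg : ∀ k : ℕ, H (-k) = H 0 + k * (H (-1) - H 0) ∧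
      H (-(k : ℤ) - 1) = H 0 + (k + 1) * (H (-1) - H 0) := by
    intro k
    induction k with
    | zero => simp
    | succ k ih =>
      refine ⟨?_, ?_⟩
      · have h5 : (-((k + 1 : ℕ) : ℤ)) = -(k : ℤ) - 1 := by push_cast; ring
        rw [h5]
        push_cast
        exact ih.2
      · have h4 := hharm (-(k : ℤ) - 1) (by omega)
        rw [sub_add_cancel] at h4
        have h5 : (-((k + 1 : ℕ) : ℤ)) - 1 = -(k : ℤ) - 1 - 1 := by push_cast; ring
        rw [h5]
        push_cast
        linarith [ih.1, ih.2]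
  have hd1 : H 1 - H 0 = 0 := by
    apply bounded_linear (a := H 0)
    intro k
    rw [← (hpos k).1, abs_le]
    exact ⟨by linarith [h0 k], h1 k⟩
  have hd2 : H (-1) - H 0 = 0 := by
    apply bounded_linear (a := H 0)
    intro k
    rw [← (hneg k).1, abs_le]
    exact ⟨by linarith [h0 (-k)], h1 (-k)⟩
  have hH0 : H 0 = 0 := by
    have : m * H 0 = 0 := by linarith
    rcases mul_eq_zero.1 this with h | h
    · exact absurd h hm.ne'
    · exact h
  have hall : ∀ q, H q = 0 := by
    intro q
    obtain ⟨k, rfl | rfl⟩ := q.eq_nat_or_neg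
    · rw [(hpos k).1, hd1, hH0]; simp
    · rw [(hneg k).1, hd2, hH0]; simp
  rw [← hall q]
  exact hlim q

/-! ### The walk on the integers -/

/-- The Markov operator of the lazy walk on `ℤ`. -/
noncomputable def T (m : ℝ) (ψ : ℤ → ℝ) (k : ℤ) : ℝ := (m * ψ k + ψ (k + 1) + ψ (k - 1)) / (m + 2)

theorem T_apply (m : ℝ) (ψ : ℤ → ℝ) (k : ℤ) :
    T m ψ k = (m * ψ k + ψ (k + 1) + ψ (k - 1)) / (m + 2) := rfl

theorem T_trans (c : ℤ) (n : ℕ) (ψ : ℤ → ℝ) (k : ℤ) :
    ((T m)^[n] (fun j => ψ (j + c))) k = ((T m)^[n] ψ) (k + c) := by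
  induction n generalizing ψ k with
  | zero => rfl
  | succ n ih =>
    rw [Function.iterate_succ_apply, Function.iterate_succ_apply]
    have : T m (fun j => ψ (j + c)) = fun j => (T m ψ) (j + c) := by
      funext j
      unfold T
      ring_nf
    rw [this, ih]

theorem T_mono (hm : 0 < m) {ψ χ : ℤ → ℝ} (h : ∀ k, ψ k ≤ χ k) (n : ℕ) (k : ℤ) :
    ((T m)^[n] ψ) k ≤ ((T m)^[n] χ) k := by
  induction n generalizing k with
  | zero => exact h k
  | succ n ih =>
    rw [Function.iterate_succ_apply', Function.iterate_succ_apply', T_apply, T_apply]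
    apply div_le_div_of_nonneg_right _ (by linarith)
    have := mul_le_mul_of_nonneg_left (ih k) hm.le
    linarith [ih (k + 1), ih (k - 1)]

theorem T_one (hm : 0 < m) (n : ℕ) (k : ℤ) : ((T m)^[n] (fun _ => 1)) k = 1 := by
  induction n generalizing k with
  | zero => rfl
  | succ n ih =>
    rw [Function.iterate_succ_apply', T_apply]
    rw [ih, ih, ih]
    field_simp
    ring

theorem T_zero (n : ℕ) (k : ℤ) : ((T m)^[n] (fun _ => 0)) k = 0 := by
  induction n generalizing k with
  | zero => rfl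
  | succ n ih =>
    rw [Function.iterate_succ_apply', T_apply]
    rw [ih, ih, ih]
    simp

theorem T_add (ψ χ : ℤ → ℝ) (n : ℕ) (k : ℤ) :
    ((T m)^[n] (fun j => ψ j + χ j)) k = ((T m)^[n] ψ) k + ((T m)^[n] χ) k := by
  induction n generalizing k with
  | zero => rfl
  | succ n ih =>
    rw [Function.iterate_succ_apply', Function.iterate_succ_apply', Function.iterate_succ_apply',
      T_apply, T_apply, T_apply]
    rw [ih, ih, ih]
    ring

theorem T_sum {ι : Type*} (s : Finset ι) (ψ : ι → ℤ → ℝ) (n : ℕ) (k : ℤ) :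
    ((T m)^[n] (fun j => ∑ i ∈ s, ψ i j)) k = ∑ i ∈ s, ((T m)^[n] (ψ i)) k := by
  classical
  induction s using Finset.induction_on with
  | empty => simp [T_zero]
  | insert i s hi ih =>
    simp_rw [Finset.sum_insert hi]
    rw [T_add, ih]

theorem T_close (hm : 0 < m) {ψ : ℤ → ℝ} (hψ : ∀ k, |ψ k| ≤ 1) (n : ℕ) (i k : ℤ) :
    |((T m)^[n] ψ) (k + 2 * i) - ((T m)^[n] ψ) k| ≤ 2 * hh m n i := by
  induction n generalizing i k with
  | zero =>
    rw [hh_zero]
    simp only [Function.iterate_zero, id]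
    have := abs_sub (ψ (k + 2 * i)) (ψ k)
    linarith [hψ (k + 2 * i), hψ k]
  | succ n ih =>
    rw [Function.iterate_succ_apply']
    set χ := (T m)^[n] ψ with hχ
    by_cases hi : i = 0
    · subst hi
      simp only [mul_zero, add_zero, sub_self, abs_zero]
      have := hh_nonneg hm (n + 1) 0
      linarith
    · rw [hh_succ, if_neg hi]
      have h1 := ih i k
      have h2 := ih (i - 1) (k + 1)
      have h3 := ih (i + 1) (k - 1)
      have e2 : k + 1 + 2 * (i - 1) = k + 2 * i - 1 := by ring
      have e3 : k - 1 + 2 * (i + 1) = k + 2 * i + 1 := by ring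
      rw [e2] at h2
      rw [e3] at h3
      have h4 : T m χ (k + 2 * i) - T m χ k =
          (m * (χ (k + 2 * i) - χ k) + (χ (k + 2 * i - 1) - χ (k + 1)) +
            (χ (k + 2 * i + 1) - χ (k - 1))) / (m + 2) := by
        unfold T
        ring
      rw [h4, abs_div, abs_of_pos (show (0 : ℝ) < m + 2 by linarith), ← mul_div_assoc]
      apply div_le_div_of_nonneg_right _ (by linarith)
      refine (abs_add_three _ _ _).trans ?_
      rw [abs_mul, abs_of_pos hm]
      have := mul_le_mul_of_nonneg_left h1 hm.le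
      linarith

/-- The probability of being at `b` tends to zero. -/
theorem tendsto_T_single (hm : 0 < m) (b : ℤ) :
    Tendsto (fun n => ((T m)^[n] (fun j => if j = b then (1 : ℝ) else 0)) 0) atTop (𝓝 0) := by
  have hn0 : ∀ n, 0 ≤ ((T m)^[n] (fun j => if j = b then (1 : ℝ) else 0)) 0 := by
    intro n
    refine (T_zero (m := m) n 0).ge.trans (T_mono hm (fun k => ?_) n 0)
    split_ifs <;> norm_num
  have key : ∀ (J : ℕ) (n : ℕ), (J : ℝ) * ((T m)^[n] (fun j => if j = b then (1 : ℝ) else 0)) 0 ≤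
      1 + ∑ i ∈ Finset.range J, 2 * hh m n i := by
    intro J n
    have h1 : ∑ i ∈ Finset.range J, ((T m)^[n] (fun j => if j = b then (1 : ℝ) else 0))
        (0 + 2 * (i : ℤ)) ≤ 1 := by
      simp_rw [← T_trans]
      rw [← T_sum]
      refine (T_mono hm (χ := fun _ => 1) (fun k => ?_) n 0).trans (T_one hm n 0).le
      by_cases h : ∃ i ∈ Finset.range J, k + 2 * (i : ℤ) = b
      · obtain ⟨i, hi, hk⟩ := h
        rw [Finset.sum_eq_single_of_mem i hi]
        · rw [if_pos hk]
        · intro j _ hji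
          rw [if_neg]
          intro hk'
          apply hji
          have : (j : ℤ) = i := by omega
          exact_mod_cast this
      · push Not at h
        rw [Finset.sum_eq_zero]
        · norm_num
        · intro i hi
          rw [if_neg (h i hi)]
    have h2 : ∀ i ∈ Finset.range J, ((T m)^[n] (fun j => if j = b then (1 : ℝ) else 0)) 0 -
        2 * hh m n i ≤ ((T m)^[n] (fun j => if j = b then (1 : ℝ) else 0)) (0 + 2 * (i : ℤ)) := by
      intro i _
      have := T_close hm (ψ := fun j => if j = b then (1 : ℝ) else 0)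
        (by intro k; split_ifs <;> norm_num) n i 0
      rw [abs_le] at this
      linarith [this.1]
    have h3 := Finset.sum_le_sum h2
    rw [Finset.sum_sub_distrib, Finset.sum_const, Finset.card_range, nsmul_eq_mul] at h3
    linarith
  rw [Metric.tendsto_atTop]
  intro ε hε
  obtain ⟨J, hJ⟩ := exists_nat_gt (2 / ε)
  have hJ0 : (0 : ℝ) < J := lt_trans (by positivity) hJ
  have hlim : Tendsto (fun n => 1 + ∑ i ∈ Finset.range J, 2 * hh m n i) atTop (𝓝 (1 + 0)) := by
    apply Tendsto.const_add
    have : (0 : ℝ) = ∑ i ∈ Finset.range J, (2 * 0 : ℝ) := by simp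
    rw [this]
    exact tendsto_finsetSum _ (fun i _ => (tendsto_hh hm i).const_mul 2)
  rw [add_zero] at hlim
  have h4 := hlim.eventually_lt_const (show (1 : ℝ) < 2 by norm_num)
  obtain ⟨N, hN⟩ := eventually_atTop.1 h4
  refine ⟨N, fun n hn => ?_⟩
  rw [Real.dist_eq, sub_zero, abs_of_nonneg (hn0 n)]
  have h5 := key J n
  have h6 := hN n hn
  rw [div_lt_iff₀ hε] at hJ
  have h7 : (J : ℝ) * ((T m)^[n] (fun j => if j = b then (1 : ℝ) else 0)) 0 < J * ε := by linarith
  exact lt_of_mul_lt_mul_left h7 hJ0.le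

end Q27.Walk
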