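import Pool.Agent.Q27.Walk.Decay

/-!
# A decaying sequence of functions on the integers, second version
-/

set_option autoImplicit false
set_option linter.unusedSectionVars false

open Finset Filter Topology

namespace Q27.Walk

/-- Total variation bounds for the lazy lamplighter walk. -/
noncomputable def hg (m m' : ℝ) : ℕ → ℤ → ℝ
  | 0, _ => 1
  | n + 1, q => ((if q = 0 then m' else m) * hg m m' n q + hg m m' n (q + 1) +
      hg m m' n (q - 1)) / (m + 2)

theorem hg_zero (m m' : ℝ) (q : ℤ) : hg m m' 0 q = 1 := rfl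

theorem hg_succ (m m' : ℝ) (n : ℕ) (q : ℤ) : hg m m' (n + 1) q =
    ((if q = 0 then m' else m) * hg m m' n q + hg m m' n (q + 1) + hg m m' n (q - 1)) / (m + 2) :=
  rfl

variable {m m' : ℝ}

theorem coef_nonneg (hm' : 0 ≤ m') (hm : m' < m) (q : ℤ) : 0 ≤ (if q = 0 then m' else m) := by
  split_ifs <;> linarith

theorem coef_le (hm : m' < m) (q : ℤ) : (if q = 0 then m' else m) ≤ m := by
  split_ifs <;> linarith

theorem hg_nonneg (hm' : 0 ≤ m') (hm : m' < m) (n : ℕ) (q : ℤ) : 0 ≤ hg m m' n q := by
  induction n generalizing q with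
  | zero => rw [hg_zero]; norm_num
  | succ n ih =>
    rw [hg_succ]
    have h1 := ih (q + 1)
    have h2 := ih (q - 1)
    have h3 := mul_nonneg (coef_nonneg hm' hm q) (ih q)
    have h4 : 0 < m + 2 := by linarith
    positivity

theorem hg_anti (hm' : 0 ≤ m') (hm : m' < m) (n : ℕ) (q : ℤ) :
    hg m m' (n + 1) q ≤ hg m m' n q := by
  induction n generalizing q with
  | zero =>
    rw [hg_succ, hg_zero, hg_zero, hg_zero, div_le_one (by linarith)]
    have := coef_le hm q
    linarith
  | succ n ih =>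
    rw [hg_succ m m' (n + 1) q]
    conv_rhs => rw [hg_succ m m' n q]
    apply div_le_div_of_nonneg_right _ (by linarith)
    have h1 := ih (q + 1)
    have h2 := ih (q - 1)
    have h3 := mul_le_mul_of_nonneg_left (ih q) (coef_nonneg hm' hm q)
    linarith

theorem hg_le_one (hm' : 0 ≤ m') (hm : m' < m) (n : ℕ) (q : ℤ) : hg m m' n q ≤ 1 := by
  induction n with
  | zero => rw [hg_zero]
  | succ n ih => exact (hg_anti hm' hm n q).trans ih

theorem tendsto_hg (hm' : 0 ≤ m') (hm : m' < m) (q : ℤ) :
    Tendsto (fun n => hg m m' n q) atTop (𝓝 0) := by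
  set H : ℤ → ℝ := fun q => ⨅ n, hg m m' n q with hH
  have hbdd : ∀ q, BddBelow (Set.range (fun n => hg m m' n q)) := fun q =>
    ⟨0, by rintro _ ⟨n, rfl⟩; exact hg_nonneg hm' hm n q⟩
  have hlim : ∀ q, Tendsto (fun n => hg m m' n q) atTop (𝓝 (H q)) := fun q =>
    tendsto_atTop_ciInf (antitone_nat_of_succ_le (fun n => hg_anti hm' hm n q)) (hbdd q)
  have h0 : ∀ q, 0 ≤ H q := fun q => ge_of_tendsto' (hlim q) (fun n => hg_nonneg hm' hm n q)
  have h1 : ∀ q, H q ≤ 1 := fun q => le_of_tendsto' (hlim q) (fun n => hg_le_one hm' hm n q)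
  have hrec : ∀ q, H q = ((if q = 0 then m' else m) * H q + H (q + 1) + H (q - 1)) / (m + 2) := by
    intro q
    have h2 : Tendsto (fun n => hg m m' (n + 1) q) atTop (𝓝 (H q)) :=
      (tendsto_add_atTop_iff_nat 1).2 (hlim q)
    have h3 : Tendsto (fun n => ((if q = 0 then m' else m) * hg m m' n q + hg m m' n (q + 1) +
        hg m m' n (q - 1)) / (m + 2)) atTop
        (𝓝 (((if q = 0 then m' else m) * H q + H (q + 1) + H (q - 1)) / (m + 2))) := by
      apply Tendsto.div_const
      apply Tendsto.add _ (hlim _)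
      apply Tendsto.add _ (hlim _)
      exact (hlim q).const_mul _
    exact tendsto_nhds_unique h2 h3
  have hm2 : m + 2 ≠ 0 := by linarith
  have hharm : ∀ q, q ≠ 0 → 2 * H q = H (q + 1) + H (q - 1) := by
    intro q hq
    have := hrec q
    rw [if_neg hq, eq_div_iff hm2] at this
    linarith
  have hz : (m + 2) * H 0 = m' * H 0 + H 1 + H (-1) := by
    have := hrec 0
    rw [if_pos rfl, eq_div_iff hm2] at this
    simp only [zero_add, zero_sub] at this
    linarith
  have hpos : ∀ k : ℕ, H k = H 0 + k * (H 1 - H 0) ∧ H ((k : ℤ) + 1) = H 0 + (k + 1) * (H 1 - H 0) := by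
    intro k
    induction k with
    | zero => simp
    | succ k ih =>
      refine ⟨?_, ?_⟩
      · push_cast
        exact ih.2
      · have h4 := hharm ((k : ℤ) + 1) (by omega)
        rw [add_sub_cancel_right] at h4
        push_cast
        linarith [ih.1, ih.2]
  have hneg : ∀ k : ℕ, H (-k) = H 0 + k * (H (-1) - H 0) ∧
      H (-(k : ℤ) - 1) = H 0 + (k + 1) * (H (-1) - H 0) := by
    intro k
    induction k with
    | zero => simp
    | succ k ih =>
      refine ⟨?_, ?_⟩
      · have h5 : (-((k + 1 : ℕ) : ℤ)) = -(k : ℤ) - 1 := by push_cast; ring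
        rw [h5]
        push_cast
        exact ih.2
      · have h4 := hharm (-(k : ℤ) - 1) (by omega)
        rw [sub_add_cancel] at h4
        have h5 : (-((k + 1 : ℕ) : ℤ)) - 1 = -(k : ℤ) - 1 - 1 := by push_cast; ring
        rw [h5]
        push_cast
        linarith [ih.1, ih.2]
  have hd1 : H 1 - H 0 = 0 := by
    apply bounded_linear (a := H 0)
    intro k
    rw [← (hpos k).1, abs_le]
    exact ⟨by linarith [h0 k], h1 k⟩
  have hd2 : H (-1) - H 0 = 0 := by
    apply bounded_linear (a := H 0)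
    intro k
    rw [← (hneg k).1, abs_le]
    exact ⟨by linarith [h0 (-k)], h1 (-k)⟩
  have hH0 : H 0 = 0 := by
    have : (m - m') * H 0 = 0 := by linarith
    rcases mul_eq_zero.1 this with h | h
    · exact absurd h (by linarith)
    · exact h
  have hall : ∀ q, H q = 0 := by
    intro q
    obtain ⟨k, rfl | rfl⟩ := q.eq_nat_or_neg
    · rw [(hpos k).1, hd1, hH0]; simp
    · rw [(hneg k).1, hd2, hH0]; simp
  rw [← hall q]
  exact hlim q

/-- The probabilities of the positions tend to zero uniformly. -/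
theorem T_single_le (hm : 0 < m) {ε : ℝ} (hε : 0 < ε) :
    ∃ N, ∀ n, N ≤ n → ∀ b : ℤ, ((T m)^[n] (fun j => if j = b then (1 : ℝ) else 0)) 0 ≤ ε := by
  have key : ∀ (J : ℕ) (n : ℕ) (b : ℤ),
      (J : ℝ) * ((T m)^[n] (fun j => if j = b then (1 : ℝ) else 0)) 0 ≤
      1 + ∑ i ∈ Finset.range J, 2 * hh m n i := by
    intro J n b
    have h1 : ∑ i ∈ Finset.range J, ((T m)^[n] (fun j => if j = b then (1 : ℝ) else 0))
        (0 + 2 * (i : ℤ)) ≤ 1 := by
      simp_rw [← T_trans]
      rw [← T_sum]
      refine (T_mono hm (χ := fun _ => 1) (fun k => ?_) n 0).trans (T_one hm n 0).le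
      by_cases h : ∃ i ∈ Finset.range J, k + 2 * (i : ℤ) = b
      · obtain ⟨i, hi, hk⟩ := h
        rw [Finset.sum_eq_single_of_mem i hi]
        · rw [if_pos hk]
        · intro j _ hji
          rw [if_neg]
          intro hk'
          apply hji
          have : (j : ℤ) = i := by omega
          exact_mod_cast this
      · push Not at h
        rw [Finset.sum_eq_zero]
        · norm_num
        · intro i hi
          rw [if_neg (h i hi)]
    have h2 : ∀ i ∈ Finset.range J, ((T m)^[n] (fun j => if j = b then (1 : ℝ) else 0)) 0 -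
        2 * hh m n i ≤ ((T m)^[n] (fun j => if j = b then (1 : ℝ) else 0)) (0 + 2 * (i : ℤ)) := by
      intro i _
      have := T_close hm (ψ := fun j => if j = b then (1 : ℝ) else 0)
        (by intro k; split_ifs <;> norm_num) n i 0
      rw [abs_le] at this
      linarith [this.1]
    have h3 := Finset.sum_le_sum h2
    rw [Finset.sum_sub_distrib, Finset.sum_const, Finset.card_range, nsmul_eq_mul] at h3
    linarith
  obtain ⟨J, hJ⟩ := exists_nat_gt (2 / ε)
  have hJ0 : (0 : ℝ) < J := lt_trans (by positivity) hJ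
  have hlim : Tendsto (fun n => 1 + ∑ i ∈ Finset.range J, 2 * hh m n i) atTop (𝓝 (1 + 0)) := by
    apply Tendsto.const_add
    have : (0 : ℝ) = ∑ i ∈ Finset.range J, (2 * 0 : ℝ) := by simp
    rw [this]
    exact tendsto_finsetSum _ (fun i _ => (tendsto_hh hm i).const_mul 2)
  rw [add_zero] at hlim
  have h4 := hlim.eventually_lt_const (show (1 : ℝ) < 2 by norm_num)
  obtain ⟨N, hN⟩ := eventually_atTop.1 h4
  refine ⟨N, fun n hn b => ?_⟩
  have h5 := key J n b
  have h6 := hN n hn
  rw [div_lt_iff₀ hε] at hJ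
  have h7 : (J : ℝ) * ((T m)^[n] (fun j => if j = b then (1 : ℝ) else 0)) 0 ≤ J * ε := by linarith
  exact le_of_mul_le_mul_left h7 hJ0

end Q27.Walk
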