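import Pool.Agent.Q27.Walk.Wreath

/-!
# The law `[[x⁻¹, y⁻¹], [z, t]]` and two random walks on `L ≀ ℤ`
-/

set_option autoImplicit false
set_option linter.unusedSectionVars false

open Finset Filter Topology
open scoped commutatorElement

namespace Q27.Walk

section general

variable {G : Type*} [Group G]

theorem E_law_succ' (μ : G →₀ ℝ) (n : ℕ) (φ : G → ℝ) :
    E (law μ (n + 1)) φ = E μ (fun h => E (law μ n) (fun g => φ (h * g))) := by
  induction n generalizing φ with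
  | zero =>
    rw [E_law_succ, E_law_zero]
    congr 1
    funext h
    rw [E_law_zero, one_mul, mul_one]
  | succ n ih =>
    rw [E_law_succ, ih]
    congr 1
    funext h
    rw [E_law_succ]
    simp only [mul_assoc]

/-- Image of a random walk under a homomorphism. -/
theorem E_law_map {H Ω : Type*} [Group H] [Fintype Ω] [Nonempty Ω] (ι : G →* H) (σ : Ω → G)
    (n : ℕ) (φ : H → ℝ) :
    E (law (unif (fun ω => ι (σ ω))) n) φ = E (law (unif σ) n) (fun g => φ (ι g)) := by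
  induction n generalizing φ with
  | zero => rw [E_law_zero, E_law_zero, map_one]
  | succ n ih =>
    rw [E_law_succ, E_law_succ, ih]
    congr 1
    funext g
    rw [E_unif, E_unif]
    simp

end general

variable {L : Type*} [Group L] [Fintype L]

open Classical in
/-- The indicator function of the law. -/
noncomputable def ind (x y z t : Wr L) : ℝ := if ⁅⁅x⁻¹, y⁻¹⁆, ⁅z, t⁆⁆ = 1 then 1 else 0

section symmetric

open Classical in
/-- Commuting tuples. -/
noncomputable def cm {K : ℕ} (u v : Fin K → L) : ℝ := if ∀ p, u p * v p = v p * u p then 1 else 0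

open Classical in
/-- The commuting probability. -/
noncomputable def kap (L : Type*) [Group L] [Fintype L] : ℝ :=
  (∑ ab : L × L, if ab.1 * ab.2 = ab.2 * ab.1 then (1 : ℝ) else 0) / (Fintype.card L : ℝ) ^ 2

theorem kap_nonneg : 0 ≤ kap L := by
  unfold kap
  apply div_nonneg _ (by positivity)
  refine Finset.sum_nonneg (fun ab _ => ?_)
  split_ifs <;> norm_num

theorem kap_lt_one {a b : L} (hab : a * b ≠ b * a) : kap L < 1 := by
  classical
  unfold kap
  have h0 : (0 : ℝ) < Fintype.card L := card_pos'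
  rw [div_lt_one (by positivity)]
  calc (∑ ab : L × L, if ab.1 * ab.2 = ab.2 * ab.1 then (1 : ℝ) else 0)
      < ∑ _ab : L × L, (1 : ℝ) := by
        refine Finset.sum_lt_sum (fun ab _ => ?_) ⟨(a, b), Finset.mem_univ _, ?_⟩
        · split_ifs <;> norm_num
        · rw [if_neg hab]; norm_num
    _ = _ := by
        rw [Finset.sum_const, Finset.card_univ, Fintype.card_prod]
        simp [sq]

theorem sum_cm (K : ℕ) :
    ∑ u : Fin K → L, ∑ v : Fin K → L, cm u v = (kap L * (Fintype.card L : ℝ) ^ 2) ^ K := by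
  classical
  have h0 : (Fintype.card L : ℝ) ≠ 0 := card_pos'.ne'
  have h1 : kap L * (Fintype.card L : ℝ) ^ 2 =
      ∑ ab : L × L, if ab.1 * ab.2 = ab.2 * ab.1 then (1 : ℝ) else 0 := by
    unfold kap
    field_simp
  rw [h1, Fintype.sum_pow, ← Finset.sum_product']
  refine Fintype.sum_equiv (Equiv.arrowProdEquivProdArrow (Fin K) (fun _ => L) (fun _ => L)).symm
    _ _ (fun uv => ?_)
  obtain ⟨u, v⟩ := uv
  unfold cm
  simp only [Equiv.arrowProdEquivProdArrow_symm_apply]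
  by_cases h : ∀ p, u p * v p = v p * u p
  · rw [if_pos h]
    symm
    apply Finset.prod_eq_one
    intro p _
    rw [if_pos (h p)]
  · rw [if_neg h]
    push Not at h
    obtain ⟨p, hp⟩ := h
    symm
    apply Finset.prod_eq_zero (Finset.mem_univ p)
    rw [if_neg hp]

theorem cm_nonneg {K : ℕ} (u v : Fin K → L) : 0 ≤ cm u v := by
  unfold cm; split_ifs <;> norm_num

theorem cm_le_one {K : ℕ} (u v : Fin K → L) : cm u v ≤ 1 := by
  unfold cm; split_ifs <;> norm_num

theorem ind_le_cm (K : ℕ) (x y z t : Wr L) :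
    ind x⁻¹ y⁻¹ z t ≤ cm (res K x y) (res K z t) := by
  unfold ind cm
  rw [inv_inv, inv_inv]
  by_cases h : ⁅⁅x, y⁆, ⁅z, t⁆⁆ = 1
  · rw [if_pos h, if_pos]
    intro p
    rw [commutatorElement_eq_one_iff_mul_comm] at h
    have := congrArg (fun w => Wr.f w ((p : ℕ) : ℤ)) h
    simp only [mul_f, comm_a, sub_zero] at this
    exact this
  · rw [if_neg h]
    split_ifs <;> norm_num

/-- The probability of the law for the symmetric walk. -/
noncomputable def probS (L : Type*) [Group L] [Fintype L] (n : ℕ) : ℝ :=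
  E (lawS L n) (fun x => E (lawS L n) (fun y => E (lawS L n) (fun z => E (lawS L n) (fun t =>
    ind x y z t))))

theorem probS_le (K n : ℕ) :
    probS L n ≤ kap L ^ K + 2 * (eps (Fintype.card L) K n + small L K n) := by
  have hcL : (0 : ℝ) < Fintype.card L := card_pos'
  have h1 : probS L n = E (lawS L n) (fun x => E (lawS L n) (fun y => E (lawS L n) (fun z =>
      E (lawS L n) (fun t => ind x⁻¹ y⁻¹ z t)))) := by
    unfold probS
    rw [← E_inv n (fun x => E (lawS L n) (fun y => E (lawS L n) (fun z => E (lawS L n) (fun t =>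
      ind x y z t))))]
    congr 1
    funext x
    rw [← E_inv n (fun y => E (lawS L n) (fun z => E (lawS L n) (fun t => ind x⁻¹ y z t)))]
  rw [h1]
  set C : ℝ := (Fintype.card (Fin K → L) : ℝ) with hC
  have hC0 : 0 < C := by rw [hC]; exact_mod_cast Fintype.card_pos
  set e : ℝ := eps (Fintype.card L) K n + small L K n with he
  let Φ : (Fin K → L) → ℝ := fun u => C⁻¹ * ∑ v : Fin K → L, cm u v
  have hΦ0 : ∀ u, 0 ≤ Φ u := fun u =>
    mul_nonneg (by positivity) (Finset.sum_nonneg (fun v _ => cm_nonneg u v))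
  have hΦ1 : ∀ u, Φ u ≤ 1 := by
    intro u
    calc Φ u ≤ C⁻¹ * ∑ _v : Fin K → L, (1 : ℝ) :=
          mul_le_mul_of_nonneg_left (Finset.sum_le_sum (fun v _ => cm_le_one u v)) (by positivity)
      _ = 1 := by
          rw [Finset.sum_const, Finset.card_univ, nsmul_eq_mul, mul_one, ← hC]
          field_simp
  have h2 : ∀ x y : Wr L, E (lawS L n) (fun z => E (lawS L n) (fun t => ind x⁻¹ y⁻¹ z t)) ≤
      Φ (res K x y) + e := by
    intro x y
    have h3 := E_E_res_le (L := L) (K := K) n (Φ := fun v => cm (res K x y) v)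
      (fun v => cm_nonneg _ v) (fun v => cm_le_one _ v)
    rw [add_assoc] at h3
    refine le_trans ?_ h3
    refine E_mono (lawS_nonneg n) (fun z => E_mono (lawS_nonneg n) (fun t => ?_))
    exact ind_le_cm K x y z t
  have h3 : E (lawS L n) (fun x => E (lawS L n) (fun y => E (lawS L n) (fun z =>
      E (lawS L n) (fun t => ind x⁻¹ y⁻¹ z t)))) ≤
      E (lawS L n) (fun x => E (lawS L n) (fun y => Φ (res K x y) + e)) :=
    E_mono (lawS_nonneg n) (fun x => E_mono (lawS_nonneg n) (fun y => h2 x y))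
  refine h3.trans ?_
  simp only [E_add_fun, E_const (μ := lawS L n) e, lawS_one, one_mul]
  have h4 := E_E_res_le (L := L) (K := K) n hΦ0 hΦ1
  have h5 : C⁻¹ * ∑ u : Fin K → L, Φ u = kap L ^ K := by
    simp only [Φ]
    rw [← Finset.mul_sum, sum_cm, ← mul_assoc, hC, Fintype.card_fun, Fintype.card_fin, mul_pow]
    push_cast
    field_simp
    ring
  rw [h5] at h4
  linarith

theorem tendsto_probS {a b : L} (hab : a * b ≠ b * a) : Tendsto (probS L) atTop (𝓝 0) := by
  have h0 : ∀ n, 0 ≤ probS L n := by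
    intro n
    have h1 : E (lawS L n) (fun _ => (0 : ℝ)) = 0 := by rw [E_const, mul_zero]
    have h2 : ∀ φ : Wr L → ℝ, (∀ x, 0 ≤ φ x) → 0 ≤ E (lawS L n) φ := by
      intro φ hφ
      rw [← h1]
      exact E_mono (lawS_nonneg n) hφ
    refine h2 _ (fun x => h2 _ (fun y => h2 _ (fun z => h2 _ (fun t => ?_))))
    unfold ind
    split_ifs <;> norm_num
  rw [Metric.tendsto_atTop]
  intro ε hε
  obtain ⟨K, hK⟩ := exists_pow_lt_of_lt_one (show 0 < ε / 2 by linarith) (kap_lt_one hab)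
  have hlim : Tendsto (fun n => kap L ^ K + 2 * (eps (Fintype.card L) K n + small L K n)) atTop
      (𝓝 (kap L ^ K + 2 * (0 + 0))) :=
    Tendsto.const_add _ (((tendsto_eps card_pos' K).add (tendsto_small K)).const_mul 2)
  have h1 : kap L ^ K + 2 * ((0 : ℝ) + 0) < ε := by linarith
  obtain ⟨N, hN⟩ := eventually_atTop.1 (hlim.eventually_lt_const h1)
  refine ⟨N, fun n hn => ?_⟩
  rw [Real.dist_eq, sub_zero, abs_of_nonneg (h0 n)]
  exact lt_of_le_of_lt (probS_le K n) (hN n hn)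

end symmetric

section drift

/-- The steps of the walk with drift. -/
def stepA : L ⊕ Fin 3 → Wr L
  | Sum.inl ℓ => lamp 0 ℓ
  | Sum.inr i => if i = 0 then sh 1 else if i = 1 then sh (-1) else sh 2

theorem E_stepA (φ : Wr L → ℝ) :
    E (unif (stepA (L := L))) φ =
      (∑ ℓ : L, φ (lamp 0 ℓ) + φ (sh 1) + φ (sh (-1)) + φ (sh 2)) / ((Fintype.card L : ℝ) + 3) := by
  rw [E_unif, Fintype.sum_sum_type, Fintype.card_sum, Fin.sum_univ_three]
  simp only [stepA, if_true, Fintype.card_fin, Fin.isValue, one_ne_zero, if_false]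
  rw [if_neg (by decide), if_neg (by decide)]
  push_cast
  ring

/-- The law after `n` steps of the walk with drift. -/
noncomputable def lawA (L : Type*) [Group L] [Fintype L] (n : ℕ) : Wr L →₀ ℝ :=
  law (unif (stepA (L := L))) n

theorem lawA_nonneg (n : ℕ) (g : Wr L) : 0 ≤ lawA L n g := law_nonneg (unif_nonneg _) n g

open Classical in
/-- The event that the support is to the left of the final position. -/
noncomputable def evB (j : ℤ) (x : Wr L) : ℝ :=
  if 1 ≤ x.a + j ∧ ∀ p, x.a + j ≤ p → x.f p = 1 then 1 else 0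

open Classical in
/-- The event that the support is to the right of the starting position. -/
noncomputable def evA (j : ℤ) (x : Wr L) : ℝ :=
  if 1 ≤ x.a + j ∧ ∀ p, p ≤ -j → x.f p = 1 then 1 else 0

theorem evB_nonneg (j : ℤ) (x : Wr L) : 0 ≤ evB j x := by unfold evB; split_ifs <;> norm_num
theorem evA_nonneg (j : ℤ) (x : Wr L) : 0 ≤ evA j x := by unfold evA; split_ifs <;> norm_num

theorem evB_sh (j s : ℤ) (x : Wr L) : evB j (x * sh s) = evB (j + s) x := by
  unfold evB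
  have h1 : x.a + s + j = x.a + (j + s) := by ring
  congr 1
  apply propext
  simp only [mul_a, sh_a, mul_f, sh_f, mul_one]
  rw [h1]

theorem evB_lamp {j : ℤ} (hj : 1 ≤ j) (x : Wr L) (ℓ : L) : evB j x ≤ evB j (x * lamp 0 ℓ) := by
  unfold evB
  by_cases h : 1 ≤ x.a + j ∧ ∀ p, x.a + j ≤ p → x.f p = 1
  · rw [if_pos h, if_pos]
    refine ⟨by simpa using h.1, fun p hp => ?_⟩
    simp only [mul_a, lamp_a, add_zero] at hp
    simp only [mul_f, lamp_f]
    rw [h.2 p hp, if_neg (by omega), one_mul]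
  · rw [if_neg h]
    split_ifs <;> norm_num

theorem evA_sh (j s : ℤ) (x : Wr L) : evA j (sh s * x) = evA (j + s) x := by
  unfold evA
  congr 1
  apply propext
  simp only [mul_a, sh_a, mul_f, sh_f, one_mul]
  constructor
  · rintro ⟨h1, h2⟩
    refine ⟨by omega, fun p hp => ?_⟩
    have := h2 (p + s) (by omega)
    rwa [add_sub_cancel_right] at this
  · rintro ⟨h1, h2⟩
    exact ⟨by omega, fun p hp => h2 (p - s) (by omega)⟩

theorem evA_lamp {j : ℤ} (hj : 1 ≤ j) (x : Wr L) (ℓ : L) : evA j x ≤ evA j (lamp 0 ℓ * x) := by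
  unfold evA
  by_cases h : 1 ≤ x.a + j ∧ ∀ p, p ≤ -j → x.f p = 1
  · rw [if_pos h, if_pos]
    refine ⟨by simpa using h.1, fun p hp => ?_⟩
    simp only [mul_f, lamp_f, lamp_a, sub_zero]
    rw [h.2 p hp, if_neg (by omega), one_mul]
  · rw [if_neg h]
    split_ifs <;> norm_num

theorem arith (m : ℝ) (hm : 0 < m) (j : ℕ) {b0 b1 b2 b3 : ℝ} (h0 : 1 - (1 / 2 : ℝ) ^ (j + 1) ≤ b0)
    (h1 : 1 - (1 / 2 : ℝ) ^ (j + 2) ≤ b1) (h2 : 1 - (1 / 2 : ℝ) ^ j ≤ b2)
    (h3 : 1 - (1 / 2 : ℝ) ^ (j + 3) ≤ b3) :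
    1 - (1 / 2 : ℝ) ^ (j + 1) ≤ (m * b0 + b1 + b2 + b3) / (m + 3) := by
  rw [le_div_iff₀ (by linarith)]
  have h4 := mul_le_mul_of_nonneg_left h0 hm.le
  have e1 : (1 / 2 : ℝ) ^ (j + 1) = (1 / 2) * (1 / 2 : ℝ) ^ j := by ring
  have e2 : (1 / 2 : ℝ) ^ (j + 2) = (1 / 4) * (1 / 2 : ℝ) ^ j := by ring
  have e3 : (1 / 2 : ℝ) ^ (j + 3) = (1 / 8) * (1 / 2 : ℝ) ^ j := by ring
  have hp : (0 : ℝ) < (1 / 2 : ℝ) ^ j := by positivity
  rw [e1] at h0 h4 ⊢
  rw [e2] at h1
  rw [e3] at h3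
  nlinarith

theorem E_evB (n : ℕ) (j : ℕ) : 1 - (1 / 2 : ℝ) ^ j ≤ E (lawA L n) (evB (j : ℤ)) := by
  have hnn : ∀ φ : Wr L → ℝ, (∀ x, 0 ≤ φ x) → ∀ n, 0 ≤ E (lawA L n) φ := by
    intro φ hφ n
    have h1 : E (lawA L n) (fun _ => (0 : ℝ)) = 0 := by rw [E_const, mul_zero]
    rw [← h1]
    exact E_mono (lawA_nonneg n) hφ
  rcases j with _ | j
  · simp only [pow_zero, sub_self]
    exact hnn _ (evB_nonneg _) n
  induction n generalizing j with
  | zero =>
    unfold lawA
    rw [E_law_zero]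
    unfold evB
    rw [if_pos]
    · have : (0 : ℝ) < (1 / 2 : ℝ) ^ (j + 1) := by positivity
      linarith
    · refine ⟨by simp, fun p _ => rfl⟩
  | succ n ih =>
    unfold lawA
    rw [E_law_succ]
    change _ ≤ E (lawA L n) _
    have h1 : ∀ g : Wr L, (Fintype.card L * evB ((j + 1 : ℕ) : ℤ) g + evB ((j + 2 : ℕ) : ℤ) g +
        evB ((j : ℕ) : ℤ) g + evB ((j + 3 : ℕ) : ℤ) g) / ((Fintype.card L : ℝ) + 3) ≤
        E (unif (stepA (L := L))) (fun h => evB ((j + 1 : ℕ) : ℤ) (g * h)) := by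
      intro g
      rw [E_stepA]
      apply div_le_div_of_nonneg_right _ (by positivity)
      rw [evB_sh, evB_sh, evB_sh]
      have e1 : ((j + 1 : ℕ) : ℤ) + 1 = ((j + 2 : ℕ) : ℤ) := by push_cast; ring
      have e2 : ((j + 1 : ℕ) : ℤ) + -1 = ((j : ℕ) : ℤ) := by push_cast; ring
      have e3 : ((j + 1 : ℕ) : ℤ) + 2 = ((j + 3 : ℕ) : ℤ) := by push_cast; ring
      rw [e1, e2, e3]
      have h2 : (Fintype.card L : ℝ) * evB ((j + 1 : ℕ) : ℤ) g ≤
          ∑ ℓ : L, evB ((j + 1 : ℕ) : ℤ) (g * lamp 0 ℓ) := by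
        rw [← nsmul_eq_mul, ← Finset.card_univ, ← Finset.sum_const]
        exact Finset.sum_le_sum (fun ℓ _ => evB_lamp (by push_cast; omega) g ℓ)
      linarith
    refine le_trans ?_ (E_mono (lawA_nonneg n) h1)
    simp only [div_eq_mul_inv]
    rw [E_mul_const, E_add_fun, E_add_fun, E_add_fun, E_const_mul, ← div_eq_mul_inv]
    apply arith _ card_pos' j (ih j)
    · exact ih (j + 1)
    · rcases j with _ | j
      · simp only [pow_zero, sub_self]
        exact hnn _ (evB_nonneg _) n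
      · exact ih j
    · exact ih (j + 2)

theorem E_evA (n : ℕ) (j : ℕ) : 1 - (1 / 2 : ℝ) ^ j ≤ E (lawA L n) (evA (j : ℤ)) := by
  have hnn : ∀ φ : Wr L → ℝ, (∀ x, 0 ≤ φ x) → ∀ n, 0 ≤ E (lawA L n) φ := by
    intro φ hφ n
    have h1 : E (lawA L n) (fun _ => (0 : ℝ)) = 0 := by rw [E_const, mul_zero]
    rw [← h1]
    exact E_mono (lawA_nonneg n) hφ
  rcases j with _ | j
  · simp only [pow_zero, sub_self]
    exact hnn _ (evA_nonneg _) n
  induction n generalizing j with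
  | zero =>
    unfold lawA
    rw [E_law_zero]
    unfold evA
    rw [if_pos]
    · have : (0 : ℝ) < (1 / 2 : ℝ) ^ (j + 1) := by positivity
      linarith
    · refine ⟨by simp, fun p _ => rfl⟩
  | succ n ih =>
    unfold lawA
    rw [E_law_succ', E_stepA]
    change _ ≤ (∑ ℓ : L, E (lawA L n) (fun g => evA ((j + 1 : ℕ) : ℤ) (lamp 0 ℓ * g)) +
      E (lawA L n) (fun g => evA ((j + 1 : ℕ) : ℤ) (sh 1 * g)) +
      E (lawA L n) (fun g => evA ((j + 1 : ℕ) : ℤ) (sh (-1) * g)) +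
      E (lawA L n) (fun g => evA ((j + 1 : ℕ) : ℤ) (sh 2 * g))) / ((Fintype.card L : ℝ) + 3)
    simp only [evA_sh]
    have e1 : ((j + 1 : ℕ) : ℤ) + 1 = ((j + 2 : ℕ) : ℤ) := by push_cast; ring
    have e2 : ((j + 1 : ℕ) : ℤ) + -1 = ((j : ℕ) : ℤ) := by push_cast; ring
    have e3 : ((j + 1 : ℕ) : ℤ) + 2 = ((j + 3 : ℕ) : ℤ) := by push_cast; ring
    rw [e1, e2, e3]
    have h2 : (Fintype.card L : ℝ) * E (lawA L n) (evA ((j + 1 : ℕ) : ℤ)) ≤
        ∑ ℓ : L, E (lawA L n) (fun g => evA ((j + 1 : ℕ) : ℤ) (lamp 0 ℓ * g)) := by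
      rw [← nsmul_eq_mul, ← Finset.card_univ, ← Finset.sum_const]
      refine Finset.sum_le_sum (fun ℓ _ => E_mono (lawA_nonneg n) (fun g => ?_))
      exact evA_lamp (by push_cast; omega) g ℓ
    have h3 : 1 - (1 / 2 : ℝ) ^ j ≤ E (lawA L n) (evA (j : ℤ)) := by
      rcases j with _ | j
      · simp only [pow_zero, sub_self]
        exact hnn _ (evA_nonneg _) n
      · exact ih j
    refine (arith _ card_pos' j (ih j) (ih (j + 1)) h3 (ih (j + 2))).trans
      (div_le_div_of_nonneg_right ?_ (by positivity))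
    change _ ≤ ∑ ℓ : L, E (lawA L n) (fun g => evA ((j + 1 : ℕ) : ℤ) (lamp 0 ℓ * g)) +
      E (lawA L n) (evA ((j + 2 : ℕ) : ℤ)) + E (lawA L n) (evA (j : ℤ)) +
      E (lawA L n) (evA ((j + 3 : ℕ) : ℤ))
    linarith

theorem E_evA_zero (n : ℕ) :
    1 / (2 * ((Fintype.card L : ℝ) + 3)) ≤ E (lawA L (n + 1)) (evA 0) := by
  have hnn : ∀ φ : Wr L → ℝ, (∀ x, 0 ≤ φ x) → ∀ n, 0 ≤ E (lawA L n) φ := by
    intro φ hφ n
    have h1 : E (lawA L n) (fun _ => (0 : ℝ)) = 0 := by rw [E_const, mul_zero]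
    rw [← h1]
    exact E_mono (lawA_nonneg n) hφ
  unfold lawA
  rw [E_law_succ', E_stepA]
  change _ ≤ (∑ ℓ : L, E (lawA L n) (fun g => evA 0 (lamp 0 ℓ * g)) +
      E (lawA L n) (fun g => evA 0 (sh 1 * g)) + E (lawA L n) (fun g => evA 0 (sh (-1) * g)) +
      E (lawA L n) (fun g => evA 0 (sh 2 * g))) / ((Fintype.card L : ℝ) + 3)
  have h1 : 0 ≤ ∑ ℓ : L, E (lawA L n) (fun g => evA 0 (lamp 0 ℓ * g)) :=
    Finset.sum_nonneg (fun ℓ _ => hnn _ (fun _ => evA_nonneg _ _) n)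
  have h2 := hnn (fun g => evA 0 (sh (-1) * g)) (fun _ => evA_nonneg _ _) n
  have h3 := hnn (fun g => evA 0 (sh 2 * g)) (fun _ => evA_nonneg _ _) n
  have h4 : (1 : ℝ) / 2 ≤ E (lawA L n) (fun g => evA 0 (sh 1 * g)) := by
    simp only [evA_sh, zero_add]
    have := E_evA (L := L) n 1
    norm_num at this
    linarith
  rw [div_le_div_iff₀ (by positivity) (by positivity)]
  have h5 : (0 : ℝ) < (Fintype.card L : ℝ) + 3 := by positivity
  nlinarith

theorem le_ind (x y z t : Wr L) : evB 1 x * (evB 1 y * (evA 0 z * evA 0 t)) ≤ ind x y z t := by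
  unfold evB evA ind
  by_cases hx : 1 ≤ x.a + 1 ∧ ∀ p, x.a + 1 ≤ p → x.f p = 1
  swap
  · rw [if_neg hx, zero_mul]; split_ifs <;> norm_num
  by_cases hy : 1 ≤ y.a + 1 ∧ ∀ p, y.a + 1 ≤ p → y.f p = 1
  swap
  · rw [if_neg hy, zero_mul, mul_zero]; split_ifs <;> norm_num
  by_cases hz : 1 ≤ z.a + 0 ∧ ∀ p, p ≤ -0 → z.f p = 1
  swap
  · rw [if_neg hz, zero_mul, mul_zero, mul_zero]; split_ifs <;> norm_num
  by_cases ht : 1 ≤ t.a + 0 ∧ ∀ p, p ≤ -0 → t.f p = 1
  swap
  · rw [if_neg ht, mul_zero, mul_zero, mul_zero]; split_ifs <;> norm_num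
  rw [if_pos hx, if_pos hy, if_pos hz, if_pos ht, if_pos]
  · norm_num
  rw [commutatorElement_eq_one_iff_mul_comm]
  obtain ⟨hx1, hx2⟩ := hx
  obtain ⟨hy1, hy2⟩ := hy
  obtain ⟨hz1, hz2⟩ := hz
  obtain ⟨ht1, ht2⟩ := ht
  have hF : ∀ p, 1 ≤ p → (⁅x⁻¹, y⁻¹⁆).f p = 1 := by
    intro p hp
    rw [comm_f]
    simp only [inv_f, inv_a, inv_inv, sub_neg_eq_add]
    rw [hx2 _ (by omega), hy2 (p + x.a + y.a) (by omega), hx2 _ (by omega), hy2 _ (by omega)]
    simp
  have hG : ∀ p, p ≤ 0 → (⁅z, t⁆).f p = 1 := by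
    intro p hp
    rw [comm_f, hz2 p (by omega), ht2 (p - z.a) (by omega), hz2 (p - t.a) (by omega),
      ht2 p (by omega)]
    simp
  ext p
  · simp only [mul_f, comm_a, sub_zero]
    rcases le_or_gt p 0 with hp | hp
    · rw [hG p hp, one_mul, mul_one]
    · rw [hF p hp, one_mul, mul_one]
  · simp [comm_a]

/-- The probability of the law for the walk with drift. -/
noncomputable def probA (L : Type*) [Group L] [Fintype L] (n : ℕ) : ℝ :=
  E (lawA L n) (fun x => E (lawA L n) (fun y => E (lawA L n) (fun z => E (lawA L n) (fun t =>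
    ind x y z t))))

theorem le_probA (n : ℕ) :
    (1 / 2) * ((1 / 2) * ((1 / (2 * ((Fintype.card L : ℝ) + 3))) *
      (1 / (2 * ((Fintype.card L : ℝ) + 3))))) ≤ probA L (n + 1) := by
  have h1 : E (lawA L (n + 1)) (evB 1) * (E (lawA L (n + 1)) (evB 1) *
      (E (lawA L (n + 1)) (evA 0) * E (lawA L (n + 1)) (evA 0))) ≤ probA L (n + 1) := by
    have h2 : E (lawA L (n + 1)) (fun x => E (lawA L (n + 1)) (fun y => E (lawA L (n + 1))
        (fun z => E (lawA L (n + 1)) (fun t => evB 1 x * (evB 1 y * (evA 0 z * evA 0 t)))))) =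
        E (lawA L (n + 1)) (evB 1) * (E (lawA L (n + 1)) (evB 1) *
      (E (lawA L (n + 1)) (evA 0) * E (lawA L (n + 1)) (evA 0))) := by
      simp only [E_const_mul]
      simp only [E_mul_const]
    rw [← h2]
    exact E_mono (lawA_nonneg _) (fun x => E_mono (lawA_nonneg _) (fun y =>
      E_mono (lawA_nonneg _) (fun z => E_mono (lawA_nonneg _) (fun t => le_ind x y z t))))
  refine le_trans ?_ h1
  have h3 := E_evB (L := L) (n + 1) 1
  norm_num at h3
  have h4 := E_evA_zero (L := L) n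
  have h5 : (1 : ℝ) / 2 ≤ E (lawA L (n + 1)) (evB 1) := by linarith
  have h6 : (0 : ℝ) ≤ 1 / (2 * ((Fintype.card L : ℝ) + 3)) := by positivity
  have h7 : 0 ≤ E (lawA L (n + 1)) (evA 0) := h6.trans h4
  gcongr

end drift

end Q27.Walk
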