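import Pool.Agent.Q27.Walk.Decay2
import Pool.Agent.Q27.Walk.Law

/-!
# The lazy random walk on the lamplighter group
-/

set_option autoImplicit false
set_option linter.unusedSectionVars false

open Finset Filter Topology
open scoped commutatorElement

namespace Q27.Walk

section general

variable {G : Type*} [Group G]

theorem mem_support_law_succ {μ : G →₀ ℝ} {n : ℕ} {g : G} (h : g ∈ (law μ (n + 1)).support) :
    ∃ x ∈ (law μ n).support, ∃ y ∈ μ.support, g = x * y := by
  classical
  rw [Finsupp.mem_support_iff, law, Finsupp.sum, Finsupp.finsetSum_apply] at h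
  obtain ⟨x, hx, h1⟩ := Finset.exists_ne_zero_of_sum_ne_zero h
  rw [Finsupp.sum, Finsupp.finsetSum_apply] at h1
  obtain ⟨y, hy, h2⟩ := Finset.exists_ne_zero_of_sum_ne_zero h1
  refine ⟨x, hx, y, hy, ?_⟩
  by_contra hne
  rw [Finsupp.single_apply, if_neg (fun h => hne h.symm)] at h2
  exact h2 rfl

theorem E_mono_on {μ : G →₀ ℝ} (hμ : ∀ g, 0 ≤ μ g) {φ ψ : G → ℝ}
    (h : ∀ g ∈ μ.support, φ g ≤ ψ g) : E μ φ ≤ E μ ψ := by
  rw [E_eq, E_eq]
  exact Finset.sum_le_sum (fun g hg => mul_le_mul_of_nonneg_left (h g hg) (hμ g))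

end general

/-- The group with two elements. -/
abbrev L2 : Type := Multiplicative (ZMod 2)

/-- Its nontrivial element. -/
def aa : L2 := Multiplicative.ofAdd 1

theorem aa_mul : aa * aa = 1 := by decide

theorem L2_cases (v : L2) : v = 1 ∨ v = aa := by
  revert v; decide

/-- The steps of the lazy walk: `1` (three times), the lamp at `0`, the two translations. -/
def st (i : Fin 6) : Wr L2 := ![1, 1, 1, lamp 0 aa, sh 1, sh (-1)] i

theorem op_st (φ : Wr L2 → ℝ) (g : Wr L2) :
    op st φ g = (3 * φ g + φ (g * lamp 0 aa) + φ (g * sh 1) + φ (g * sh (-1))) / 6 := by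
  unfold op
  rw [Fintype.card_fin, Fin.sum_univ_six]
  have h0 : st 0 = 1 := rfl
  have h1 : st 1 = 1 := rfl
  have h2 : st 2 = 1 := rfl
  have h3 : st 3 = lamp 0 aa := rfl
  have h4 : st 4 = sh 1 := rfl
  have h5 : st 5 = sh (-1) := rfl
  rw [h0, h1, h2, h3, h4, h5, mul_one]
  push_cast
  ring

/-- The law after `n` steps. -/
noncomputable def lawL (n : ℕ) : Wr L2 →₀ ℝ := law (unif st) n

theorem E_lawL (n : ℕ) (φ : Wr L2 → ℝ) : E (lawL n) φ = ((op st)^[n] φ) 1 := E_law_unif _ _ _

theorem lawL_nonneg (n : ℕ) (g : Wr L2) : 0 ≤ lawL n g := law_nonneg (unif_nonneg _) n g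

theorem lawL_one (n : ℕ) : E (lawL n) (fun _ => 1) = 1 := E_law_one (E_unif_one _) n

theorem E_lawL_nonneg {φ : Wr L2 → ℝ} (hφ : ∀ x, 0 ≤ φ x) (n : ℕ) : 0 ≤ E (lawL n) φ := by
  have h1 : E (lawL n) (fun _ => (0 : ℝ)) = 0 := by rw [E_const, mul_zero]
  rw [← h1]
  exact E_mono (lawL_nonneg n) hφ

/-- The elements which can be reached in `n` steps. -/
theorem reach (n : ℕ) (g : Wr L2) (hg : g ∈ (lawL n).support) :
    |g.a| ≤ n ∧ ∀ p : ℤ, (n : ℤ) < |p| → g.f p = 1 := by
  induction n generalizing g with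
  | zero =>
    have : g = 1 := by
      unfold lawL law at hg
      have := Finsupp.support_single_subset hg
      simpa using this
    subst this
    simp
  | succ n ih =>
    obtain ⟨x, hx, y, hy, rfl⟩ := mem_support_law_succ hg
    obtain ⟨h1, h2⟩ := ih x hx
    have hy' : y ∈ Set.range st := by
      rw [← support_unif]
      exact hy
    obtain ⟨i, rfl⟩ := hy'
    have key : st i = 1 ∨ st i = lamp 0 aa ∨ st i = sh 1 ∨ st i = sh (-1) := by
      fin_cases i
      · exact Or.inl rfl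
      · exact Or.inl rfl
      · exact Or.inl rfl
      · exact Or.inr (Or.inl rfl)
      · exact Or.inr (Or.inr (Or.inl rfl))
      · exact Or.inr (Or.inr (Or.inr rfl))
    rw [abs_le] at h1
    rcases key with h | h | h | h
    · rw [h, mul_one]
      refine ⟨by rw [abs_le]; push_cast; omega, fun p hp => h2 p (by push_cast at hp; omega)⟩
    · rw [h]
      refine ⟨?_, fun p hp => ?_⟩
      · simp only [mul_a, lamp_a, add_zero]
        rw [abs_le]
        push_cast
        omega
      · simp only [mul_f, lamp_f]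
        rw [h2 p (by push_cast at hp; omega), if_neg, one_mul]
        intro h3
        have : p = x.a := by omega
        rw [this] at hp
        have h4 : |x.a| ≤ n := abs_le.2 h1
        push_cast at hp
        omega
    · rw [h]
      refine ⟨?_, fun p hp => ?_⟩
      · simp only [mul_a, sh_a]
        rw [abs_le]
        push_cast
        omega
      · simp only [mul_f, sh_f, mul_one]
        exact h2 p (by push_cast at hp; omega)
    · rw [h]
      refine ⟨?_, fun p hp => ?_⟩
      · simp only [mul_a, sh_a]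
        rw [abs_le]
        push_cast
        omega
      · simp only [mul_f, sh_f, mul_one]
        exact h2 p (by push_cast at hp; omega)

/-! ### Total variation -/

theorem lampL_bound {φ : Wr L2 → ℝ} (hφ : ∀ g, |φ g| ≤ 1) (n : ℕ) (g : Wr L2) (q : ℤ) :
    |((op st)^[n] φ) (g * lamp q aa) - ((op st)^[n] φ) g| ≤ 2 * hg 4 2 n q := by
  induction n generalizing g q with
  | zero =>
    rw [hg_zero]
    simp only [Function.iterate_zero, id]
    have := abs_sub (φ (g * lamp q aa)) (φ g)
    linarith [hφ (g * lamp q aa), hφ g]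
  | succ n ih =>
    rw [Function.iterate_succ_apply']
    set ψ := (op st)^[n] φ with hψ
    rw [op_st, op_st, ← sub_div, abs_div, abs_of_pos (show (0 : ℝ) < 6 by norm_num), hg_succ,
      ← mul_div_assoc]
    have e6 : (4 : ℝ) + 2 = 6 := by norm_num
    rw [e6]
    apply div_le_div_of_nonneg_right _ (by norm_num)
    have e1 : g * lamp q aa * sh 1 = g * sh 1 * lamp (q - 1) aa := by
      rw [mul_assoc, lamp_sh, mul_assoc]
    have e2 : g * lamp q aa * sh (-1) = g * sh (-1) * lamp (q + 1) aa := by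
      rw [mul_assoc, lamp_sh, mul_assoc]
      simp
    rw [e1, e2]
    have h0 := ih g q
    have h1 := ih (g * sh 1) (q - 1)
    have h2 := ih (g * sh (-1)) (q + 1)
    by_cases hq : q = 0
    · subst hq
      rw [if_pos rfl]
      have e3 : g * lamp 0 aa * lamp 0 aa = g := by
        rw [mul_assoc, lamp_mul, aa_mul, lamp_one, mul_one]
      rw [e3]
      have h4 : 3 * ψ (g * lamp 0 aa) + ψ g + ψ (g * sh 1 * lamp (0 - 1) aa) +
          ψ (g * sh (-1) * lamp (0 + 1) aa) -
          (3 * ψ g + ψ (g * lamp 0 aa) + ψ (g * sh 1) + ψ (g * sh (-1))) =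
          2 * (ψ (g * lamp 0 aa) - ψ g) + (ψ (g * sh 1 * lamp (0 - 1) aa) - ψ (g * sh 1)) +
          (ψ (g * sh (-1) * lamp (0 + 1) aa) - ψ (g * sh (-1))) := by ring
      rw [h4]
      refine (abs_add_three _ _ _).trans ?_
      rw [abs_mul, abs_of_pos (show (0 : ℝ) < 2 by norm_num)]
      linarith
    · rw [if_neg hq]
      have e3 : g * lamp q aa * lamp 0 aa = g * lamp 0 aa * lamp q aa := by
        rw [mul_assoc, lamp_comm hq, ← mul_assoc]
      rw [e3]
      have h3 := ih (g * lamp 0 aa) q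
      have h4 : 3 * ψ (g * lamp q aa) + ψ (g * lamp 0 aa * lamp q aa) +
          ψ (g * sh 1 * lamp (q - 1) aa) + ψ (g * sh (-1) * lamp (q + 1) aa) -
          (3 * ψ g + ψ (g * lamp 0 aa) + ψ (g * sh 1) + ψ (g * sh (-1))) =
          (3 * (ψ (g * lamp q aa) - ψ g) + (ψ (g * lamp 0 aa * lamp q aa) - ψ (g * lamp 0 aa))) +
          (ψ (g * sh 1 * lamp (q - 1) aa) - ψ (g * sh 1)) +
          (ψ (g * sh (-1) * lamp (q + 1) aa) - ψ (g * sh (-1))) := by ring
      rw [h4]
      refine (abs_add_three _ _ _).trans ?_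
      have h5 := abs_add_le (3 * (ψ (g * lamp q aa) - ψ g))
        (ψ (g * lamp 0 aa * lamp q aa) - ψ (g * lamp 0 aa))
      rw [abs_mul, abs_of_pos (show (0 : ℝ) < 3 by norm_num)] at h5
      linarith

/-- The total variation bound. -/
noncomputable def epsL (K n : ℕ) : ℝ := ∑ i ∈ Finset.range K, 2 * hg 4 2 n i

theorem epsL_nonneg (K n : ℕ) : 0 ≤ epsL K n :=
  Finset.sum_nonneg (fun i _ => mul_nonneg (by norm_num) (hg_nonneg (by norm_num) (by norm_num) _ _))

theorem tendsto_epsL (K : ℕ) : Tendsto (epsL K) atTop (𝓝 0) := by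
  have : (0 : ℝ) = ∑ i ∈ Finset.range K, (2 * 0 : ℝ) := by simp
  unfold epsL
  rw [this]
  exact tendsto_finsetSum _ (fun i _ => (tendsto_hg (by norm_num) (by norm_num) i).const_mul 2)

theorem bsL_bound {φ : Wr L2 → ℝ} (hφ : ∀ g, |φ g| ≤ 1) (n K : ℕ) (v : ℤ → L2) :
    |((op st)^[n] φ) (bs K v) - ((op st)^[n] φ) 1| ≤ epsL K n := by
  induction K with
  | zero => simp [bs_zero, epsL]
  | succ K ih =>
    have h1 : |((op st)^[n] φ) (bs (K + 1) v) - ((op st)^[n] φ) (bs K v)| ≤ 2 * hg 4 2 n K := by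
      rw [bs_succ]
      rcases L2_cases (v K) with h | h
      · rw [h, lamp_one, mul_one, sub_self, abs_zero]
        exact mul_nonneg (by norm_num) (hg_nonneg (by norm_num) (by norm_num) _ _)
      · rw [h]
        exact lampL_bound hφ n (bs K v) K
    unfold epsL at ih ⊢
    rw [Finset.sum_range_succ]
    calc _ ≤ |((op st)^[n] φ) (bs (K + 1) v) - ((op st)^[n] φ) (bs K v)| +
          |((op st)^[n] φ) (bs K v) - ((op st)^[n] φ) 1| := abs_sub_le _ _ _
      _ ≤ _ := by linarith

theorem EL_bs_le {φ : Wr L2 → ℝ} (hφ : ∀ g, |φ g| ≤ 1) (n K : ℕ) (v : ℤ → L2) :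
    E (lawL n) φ ≤ E (lawL n) (fun x => φ (bs K v * x)) + epsL K n := by
  rw [E_lawL, E_lawL, op_trans, mul_one]
  have := (abs_le.1 (bsL_bound hφ n K v)).1
  linarith

/-! ### Positions -/

theorem opL_pos (n : ℕ) (ψ : ℤ → ℝ) (g : Wr L2) :
    ((op st)^[n] (fun x => ψ x.a)) g = ((T 4)^[n] ψ) g.a := by
  induction n generalizing ψ with
  | zero => rfl
  | succ n ih =>
    rw [Function.iterate_succ_apply, Function.iterate_succ_apply]
    have : op st (fun x => ψ x.a) = fun x => (T 4 ψ) x.a := by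
      funext x
      rw [op_st, T_apply]
      simp only [mul_a, lamp_a, sh_a, add_zero]
      have e : x.a + -1 = x.a - 1 := rfl
      rw [e]
      ring
    rw [this, ih]

/-- Uniform bound for the probabilities of positions. -/
theorem pos_le {ε : ℝ} (hε : 0 < ε) : ∃ N, ∀ n, N ≤ n → ∀ b : ℤ,
    E (lawL n) (fun x => if x.a = b then 1 else 0) ≤ ε := by
  obtain ⟨N, hN⟩ := T_single_le (m := 4) (by norm_num) hε
  refine ⟨N, fun n hn b => ?_⟩
  rw [E_lawL]
  have := opL_pos n (fun j => if j = b then (1 : ℝ) else 0) 1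
  rw [this]
  exact hN n hn b

theorem E_sq (n : ℕ) (g : Wr L2) :
    ((op st)^[n] (fun x => (x.a : ℝ) ^ 2)) g = (g.a : ℝ) ^ 2 + n / 3 := by
  induction n generalizing g with
  | zero => simp
  | succ n ih =>
    rw [Function.iterate_succ_apply', op_st, ih, ih, ih, ih]
    simp only [mul_a, lamp_a, sh_a, add_zero]
    push_cast
    ring

theorem E_four (n : ℕ) (g : Wr L2) :
    ((op st)^[n] (fun x => (x.a : ℝ) ^ 4)) g =
      (g.a : ℝ) ^ 4 + 2 * n * (g.a : ℝ) ^ 2 + (n : ℝ) ^ 2 / 3 := by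
  induction n generalizing g with
  | zero => simp
  | succ n ih =>
    rw [Function.iterate_succ_apply', op_st, ih, ih, ih, ih]
    simp only [mul_a, lamp_a, sh_a, add_zero]
    push_cast
    ring

open Classical in
/-- The position is at least `c √n` with probability at least `1/8`. -/
theorem far_prob (n : ℕ) (hn : 1 ≤ n) :
    1 / 8 ≤ E (lawL n) (fun u => if (n : ℝ) < 8 * (u.a : ℝ) ^ 2 then 1 else 0) := by
  have hn0 : (0 : ℝ) < n := by exact_mod_cast hn
  have h1 : ∀ u : Wr L2, (u.a : ℝ) ^ 2 * (1 / n) + (u.a : ℝ) ^ 4 * (-1 / (4 * (n : ℝ) ^ 2)) +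
      (-(1 / 8)) ≤ (if (n : ℝ) < 8 * (u.a : ℝ) ^ 2 then 1 else 0) := by
    intro u
    set y : ℝ := (u.a : ℝ) ^ 2 / n with hy
    have hy0 : 0 ≤ y := by positivity
    have e : (u.a : ℝ) ^ 2 * (1 / n) + (u.a : ℝ) ^ 4 * (-1 / (4 * (n : ℝ) ^ 2)) + (-(1 / 8)) =
        y - y ^ 2 / 4 - 1 / 8 := by
      rw [hy]
      field_simp
      ring
    rw [e]
    split_ifs with h
    · nlinarith [sq_nonneg (y - 2)]
    · have h2 : y ≤ 1 / 8 := by
        rw [hy, div_le_iff₀ hn0]
        linarith
      nlinarith [sq_nonneg y]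
  refine le_trans ?_ (E_mono (lawL_nonneg n) h1)
  rw [E_add_fun, E_add_fun, E_mul_const, E_mul_const, E_const, lawL_one, E_lawL, E_lawL, E_sq,
    E_four]
  simp only [one_a, Int.cast_zero]
  field_simp
  ring_nf
  norm_num

/-! ### Ranges -/

open Classical in
/-- The indicator function of the elements with support and position in `[-A, A]`. -/
noncomputable def rho (A : ℝ) (g : Wr L2) : ℝ :=
  if |(g.a : ℝ)| ≤ A ∧ ∀ p : ℤ, A < |(p : ℝ)| → g.f p = 1 then 1 else 0

theorem rho_nonneg (A : ℝ) (g : Wr L2) : 0 ≤ rho A g := by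
  unfold rho; split_ifs <;> norm_num

theorem rho_le_one (A : ℝ) (g : Wr L2) : rho A g ≤ 1 := by
  unfold rho; split_ifs <;> norm_num

theorem iter_rho_nonneg (A : ℝ) (n : ℕ) (g : Wr L2) : 0 ≤ ((op st)^[n] (rho A)) g := by
  induction n generalizing g with
  | zero => exact rho_nonneg A g
  | succ n ih =>
    rw [Function.iterate_succ_apply', op_st]
    have h0 := ih g
    have h1 := ih (g * lamp 0 aa)
    have h2 := ih (g * sh 1)
    have h3 := ih (g * sh (-1))
    positivity

theorem iter_rho (A : ℝ) (hA : 0 < A) (n : ℕ) (g : Wr L2)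
    (hg : |(g.a : ℝ)| ≤ A ∧ ∀ p : ℤ, A < |(p : ℝ)| → g.f p = 1) :
    1 - ((g.a : ℝ) ^ 2 + n / 3) / A ^ 2 ≤ ((op st)^[n] (rho A)) g := by
  induction n generalizing g with
  | zero =>
    simp only [Function.iterate_zero, id]
    unfold rho
    rw [if_pos hg]
    have : 0 ≤ ((g.a : ℝ) ^ 2 + ((0 : ℕ) : ℝ) / 3) / A ^ 2 := by positivity
    linarith
  | succ n ih =>
    rw [Function.iterate_succ_apply', op_st]
    have h0 := ih g hg
    have h1 : 1 - ((g.a : ℝ) ^ 2 + n / 3) / A ^ 2 ≤ ((op st)^[n] (rho A)) (g * lamp 0 aa) := by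
      have := ih (g * lamp 0 aa) ?_
      · simpa using this
      · refine ⟨by simpa using hg.1, fun p hp => ?_⟩
        simp only [mul_f, lamp_f]
        rw [hg.2 p hp, if_neg, one_mul]
        intro h3
        have : p = g.a := by omega
        rw [this] at hp
        exact absurd hg.1 (not_le.2 hp)
    have hstep : ∀ s : ℤ, 1 - (((g.a : ℝ) + s) ^ 2 + n / 3) / A ^ 2 ≤
        ((op st)^[n] (rho A)) (g * sh s) := by
      intro s
      by_cases h : |((g.a + s : ℤ) : ℝ)| ≤ A
      · have := ih (g * sh s) ⟨by simpa using h, fun p hp => by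
          simp only [mul_f, sh_f, mul_one]
          exact hg.2 p hp⟩
        simp only [mul_a, sh_a] at this
        push_cast at this
        exact this
      · refine le_trans ?_ (iter_rho_nonneg A n _)
        rw [not_le] at h
        have h3 : A ^ 2 ≤ ((g.a : ℝ) + s) ^ 2 := by
          push_cast at h
          rw [← sq_abs ((g.a : ℝ) + s)]
          exact pow_le_pow_left₀ hA.le h.le 2
        rw [sub_nonpos, le_div_iff₀ (by positivity)]
        have : (0 : ℝ) ≤ n / 3 := by positivity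
        linarith
    have h2 := hstep 1
    have h3 := hstep (-1)
    push_cast at h2 h3 ⊢
    have hA2 : (0 : ℝ) < A ^ 2 := by positivity
    have e : 1 - ((g.a : ℝ) ^ 2 + ((n : ℝ) + 1) / 3) / A ^ 2 =
        (3 * (1 - ((g.a : ℝ) ^ 2 + n / 3) / A ^ 2) + (1 - ((g.a : ℝ) ^ 2 + n / 3) / A ^ 2) +
        (1 - (((g.a : ℝ) + 1) ^ 2 + n / 3) / A ^ 2) +
        (1 - (((g.a : ℝ) + -1) ^ 2 + n / 3) / A ^ 2)) / 6 := by
      field_simp
      ring
    rw [e]
    apply div_le_div_of_nonneg_right _ (by norm_num)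
    linarith

/-- The range is at most `2 √n` with probability at least `11/12`. -/
theorem range_prob (n : ℕ) (hn : 1 ≤ n) : 11 / 12 ≤ E (lawL n) (rho (2 * Real.sqrt n)) := by
  have hn0 : (0 : ℝ) < n := by exact_mod_cast hn
  have hs : 0 < Real.sqrt n := Real.sqrt_pos.2 hn0
  rw [E_lawL]
  have h := iter_rho (2 * Real.sqrt n) (by positivity) n 1 ⟨by simp, fun p _ => rfl⟩
  refine le_trans (le_of_eq ?_) h
  rw [mul_pow, Real.sq_sqrt hn0.le]
  simp only [one_a, Int.cast_zero]
  field_simp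
  ring

end Q27.Walk
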