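import Pool.Agent.Q27.Walk.Lazy

/-!
# Oscillating probabilities
-/

set_option autoImplicit false
set_option linter.unusedSectionVars false

open Finset Filter Topology
open scoped commutatorElement

namespace Q27.Walk

/-- The parity function of the commutator of `x` and `y`. -/
def cf (x y : Wr L2) (p : ℤ) : ZMod 2 := Multiplicative.toAdd ((⁅x, y⁆).f p)

/-- The condition for `w(x, y, z, v, u) = 1`. -/
def Cond (K : Set ℕ) (x y z v u : Wr L2) : Prop :=
  ∀ k ∈ K, ∀ p : ℤ, cf x y (p - 32 * u.a) * cf z v (p - k) =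
    cf z v p * cf x y (p - k - 32 * u.a)

open Classical in
/-- The probability of the law. -/
noncomputable def pK (K : Set ℕ) (n : ℕ) : ℝ :=
  E (lawL n) (fun x => E (lawL n) (fun y => E (lawL n) (fun z => E (lawL n) (fun v =>
    E (lawL n) (fun u => if Cond K x y z v u then 1 else 0)))))

theorem cf_support {A : ℤ} {x y : Wr L2} (hx : |x.a| ≤ A ∧ ∀ p : ℤ, A < |p| → x.f p = 1)
    (hy : |y.a| ≤ A ∧ ∀ p : ℤ, A < |p| → y.f p = 1) {p : ℤ} (hp : 2 * A < |p|) : cf x y p = 0 := by
  unfold cf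
  obtain ⟨hx1, hx2⟩ := hx
  obtain ⟨hy1, hy2⟩ := hy
  rw [abs_le] at hx1 hy1
  have h0 : 0 ≤ A := by omega
  rw [comm_f, hx2 p (by omega), hy2 p (by omega), hy2 (p - x.a), hx2 (p - y.a)]
  · simp
  · rw [lt_abs] at hp ⊢
    omega
  · rw [lt_abs] at hp ⊢
    omega

/-! ### The commutators are rarely trivial -/

open Classical in
/-- The indicator function of the pairs with trivial commutator. -/
noncomputable def zi (x y : Wr L2) : ℝ := if ∀ p, cf x y p = 0 then 1 else 0

open Classical in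
/-- The indicator of the trivial tuple. -/
noncomputable def oi {K : ℕ} (u : Fin K → L2) : ℝ := if ∀ p, u p = 1 then 1 else 0

theorem zi_le (K : ℕ) (x y : Wr L2) : zi x y ≤ oi (res K x y) := by
  unfold zi oi
  by_cases h : ∀ p, cf x y p = 0
  · rw [if_pos h, if_pos]
    intro p
    exact Multiplicative.toAdd.injective (h _)
  · rw [if_neg h]
    split_ifs <;> norm_num

theorem sum_oi (K : ℕ) : ∑ u : Fin K → L2, oi u = 1 := by
  classical
  unfold oi
  rw [Finset.sum_eq_single (1 : Fin K → L2)]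
  · exact if_pos (fun p => rfl)
  · intro u _ hu
    rw [if_neg]
    intro h
    exact hu (funext h)
  · intro h
    exact absurd (Finset.mem_univ _) h

theorem EL_res_le {K : ℕ} {x : Wr L2} (hx : ¬ |x.a| < K) (n : ℕ) {Φ : (Fin K → L2) → ℝ}
    (hΦ : ∀ u, |Φ u| ≤ 1) :
    E (lawL n) (fun y => Φ (res K x y)) ≤
      (Fintype.card (Fin K → L2) : ℝ)⁻¹ * ∑ u : Fin K → L2, Φ u + epsL K n := by
  classical
  have hcard : (0 : ℝ) < Fintype.card (Fin K → L2) := by exact_mod_cast Fintype.card_pos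
  have h1 : ∀ v : Fin K → L2, E (lawL n) (fun y => Φ (res K x y)) ≤
      E (lawL n) (fun y => Φ (fun p => res K x y p * (v p)⁻¹)) + epsL K n := by
    intro v
    let v' : ℤ → L2 := fun p => if h : 0 ≤ p ∧ p < K then v ⟨p.toNat, by omega⟩ else 1
    have hv' : ∀ p : Fin K, v' ((p : ℕ) : ℤ) = v p := by
      intro p
      have hp : (0 : ℤ) ≤ ((p : ℕ) : ℤ) ∧ ((p : ℕ) : ℤ) < K := by have := p.2; omega
      simp only [v', dif_pos hp]
      rfl
    have h2 := EL_bs_le (φ := fun y => Φ (res K x y)) (fun y => hΦ _) n K v'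
    simp only [res_bs hx, hv'] at h2
    exact h2
  have h2 : ∑ v : Fin K → L2, E (lawL n) (fun y => Φ (res K x y)) ≤
      ∑ v : Fin K → L2, (E (lawL n) (fun y => Φ (fun p => res K x y p * (v p)⁻¹)) +
        epsL K n) := Finset.sum_le_sum (fun v _ => h1 v)
  rw [Finset.sum_const, Finset.card_univ, nsmul_eq_mul, Finset.sum_add_distrib, Finset.sum_const,
    Finset.card_univ, nsmul_eq_mul, ← E_sum_fun] at h2
  have h3 : (fun y => ∑ v : Fin K → L2, Φ (fun p => res K x y p * (v p)⁻¹)) =
      fun _ => (∑ u : Fin K → L2, Φ u) := by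
    funext y
    let e : (Fin K → L2) ≃ (Fin K → L2) := (Equiv.inv _).trans (Equiv.mulLeft (res K x y))
    exact Fintype.sum_equiv e _ _ (fun v => rfl)
  rw [h3, E_const, lawL_one, one_mul] at h2
  have h4 : E (lawL n) (fun y => Φ (res K x y)) =
      (Fintype.card (Fin K → L2) : ℝ)⁻¹ * ((Fintype.card (Fin K → L2) : ℝ) *
        E (lawL n) (fun y => Φ (res K x y))) := by
    field_simp
  rw [h4]
  calc _ ≤ (Fintype.card (Fin K → L2) : ℝ)⁻¹ * (∑ u : Fin K → L2, Φ u +
        (Fintype.card (Fin K → L2) : ℝ) * epsL K n) := by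
        apply mul_le_mul_of_nonneg_left h2 (by positivity)
    _ = _ := by field_simp

open Classical in
/-- The probability that the position is in `(-K, K)`. -/
noncomputable def smallL (K n : ℕ) : ℝ := E (lawL n) (fun x => if |x.a| < K then 1 else 0)

theorem smallL_le {ε : ℝ} (hε : 0 < ε) (K : ℕ) : ∃ N, ∀ n, N ≤ n → smallL K n ≤ ε := by
  classical
  obtain ⟨N, hN⟩ := pos_le (ε := ε / (2 * K + 1)) (by positivity)
  refine ⟨N, fun n hn => ?_⟩
  unfold smallL
  have h1 : E (lawL n) (fun x => if |x.a| < K then 1 else 0) ≤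
      E (lawL n) (fun x => ∑ b ∈ Finset.Icc (-(K : ℤ)) K, if x.a = b then (1 : ℝ) else 0) := by
    refine E_mono (lawL_nonneg n) (fun x => ?_)
    rw [Finset.sum_ite_eq]
    by_cases h : |x.a| < K
    · rw [if_pos h, if_pos]
      rw [abs_lt] at h
      rw [Finset.mem_Icc]
      constructor <;> omega
    · rw [if_neg h]
      split_ifs <;> norm_num
  refine h1.trans ?_
  rw [E_sum_fun]
  calc _ ≤ ∑ _b ∈ Finset.Icc (-(K : ℤ)) K, ε / (2 * K + 1) :=
        Finset.sum_le_sum (fun b _ => hN n hn b)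
    _ = ε := by
        rw [Finset.sum_const, Int.card_Icc, nsmul_eq_mul]
        have : ((K : ℤ) + 1 - -(K : ℤ)).toNat = 2 * K + 1 := by omega
        rw [this]
        push_cast
        field_simp

theorem zi_prob {ε : ℝ} (hε : 0 < ε) : ∃ N, ∀ n, N ≤ n →
    E (lawL n) (fun x => E (lawL n) (fun y => zi x y)) ≤ ε := by
  classical
  obtain ⟨K, hK⟩ := exists_pow_lt_of_lt_one (show 0 < ε / 3 by linarith)
    (show (1 / 2 : ℝ) < 1 by norm_num)
  obtain ⟨N1, hN1⟩ := smallL_le (show 0 < ε / 3 by linarith) K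
  obtain ⟨N2, hN2⟩ := eventually_atTop.1 ((tendsto_epsL K).eventually_lt_const
    (show (0 : ℝ) < ε / 3 by linarith))
  refine ⟨max N1 N2, fun n hn => ?_⟩
  have hn1 := hN1 n (le_trans (le_max_left _ _) hn)
  have hn2 := hN2 n (le_trans (le_max_right _ _) hn)
  have hc : (Fintype.card (Fin K → L2) : ℝ)⁻¹ = (1 / 2 : ℝ) ^ K := by
    rw [Fintype.card_fun, Fintype.card_fin]
    have : Fintype.card L2 = 2 := by decide
    rw [this]
    push_cast
    rw [one_div, inv_pow]
  have key : ∀ x : Wr L2, E (lawL n) (fun y => zi x y) ≤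
      (1 / 2 : ℝ) ^ K + epsL K n + (if |x.a| < K then (1 : ℝ) else 0) := by
    intro x
    by_cases hx : |x.a| < K
    · rw [if_pos hx]
      have h1 : E (lawL n) (fun y => zi x y) ≤ E (lawL n) (fun _ => 1) :=
        E_mono (lawL_nonneg n) (fun y => by unfold zi; split_ifs <;> norm_num)
      rw [lawL_one] at h1
      have := epsL_nonneg K n
      have h2 : (0 : ℝ) ≤ (1 / 2 : ℝ) ^ K := by positivity
      linarith
    · rw [if_neg hx, add_zero]
      have h1 := EL_res_le hx n (Φ := oi) (fun u => by unfold oi; split_ifs <;> norm_num)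
      rw [sum_oi, mul_one, hc] at h1
      exact (E_mono (lawL_nonneg n) (fun y => zi_le K x y)).trans h1
  refine (E_mono (lawL_nonneg n) key).trans ?_
  rw [E_add_fun, E_const, lawL_one, one_mul]
  change (1 / 2 : ℝ) ^ K + epsL K n + smallL K n ≤ ε
  linarith

/-! ### The dense regime -/

theorem exists_max {F : ℤ → ZMod 2} {A : ℤ} (hF : ∀ p, A < |p| → F p = 0) (h : ∃ p, F p ≠ 0) :
    ∃ f, F f ≠ 0 ∧ |f| ≤ A ∧ ∀ p, f < p → F p = 0 := by
  obtain ⟨p0, hp0⟩ := h
  obtain ⟨f, hf1, hf2⟩ := Int.exists_greatest_of_bdd (P := fun p => F p ≠ 0)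
    ⟨A, fun p hp => by
      by_contra hlt
      exact hp (hF p (lt_of_lt_of_le (not_le.1 hlt) (le_abs_self p)))⟩ ⟨p0, hp0⟩
  refine ⟨f, hf1, ?_, fun p hp => ?_⟩
  · by_contra hlt
    exact hf1 (hF f (not_le.1 hlt))
  · by_contra hne
    exact absurd (hf2 p hne) (not_le.2 hp)

/-- If `F` and `G` are nonzero functions with maxima `f` and `g` of their supports, then the
condition fails for `k = |f + D - g|`. -/
theorem not_cond {F G : ℤ → ZMod 2} {f g D : ℤ} (hf : F f ≠ 0) (hf' : ∀ p, f < p → F p = 0)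
    (hg : G g ≠ 0) (hg' : ∀ p, g < p → G p = 0) {k : ℕ} (hk : 0 < k) (hkd : (k : ℤ) = |f + D - g|) :
    ∃ p : ℤ, F (p - D) * G (p - k) ≠ G p * F (p - k - D) := by
  rcases le_or_gt 0 (f + D - g) with h | h
  · rw [abs_of_nonneg h] at hkd
    refine ⟨f + D, ?_⟩
    have e1 : f + D - D = f := by ring
    have e2 : f + D - (k : ℤ) = g := by omega
    rw [e1, e2, hg' (f + D) (by omega), zero_mul]
    exact mul_ne_zero hf hg
  · rw [abs_of_neg h] at hkd
    refine ⟨g, ?_⟩
    have e1 : g - (k : ℤ) - D = f := by omega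
    rw [e1, hf' (g - D) (by omega), zero_mul]
    exact (mul_ne_zero hg hf).symm

theorem dense {ε : ℝ} (hε : 0 < ε) (R : ℕ) (hR : 1 ≤ R) : ∃ N, ∀ n, N ≤ n → ∀ K : Set ℕ,
    (∀ k : ℕ, R ≤ k → k ≤ 41 * n → k ∈ K) → pK K n ≤ ε := by
  classical
  obtain ⟨N1, hN1⟩ := zi_prob (show 0 < ε / 4 by linarith)
  obtain ⟨N2, hN2⟩ := pos_le (ε := ε / (4 * R)) (by positivity)
  refine ⟨max N1 N2, fun n hn K hK => ?_⟩
  have hn1 := hN1 n (le_trans (le_max_left _ _) hn)
  have hn2 := hN2 n (le_trans (le_max_right _ _) hn)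
  have key : ∀ x ∈ (lawL n).support, ∀ y ∈ (lawL n).support, ∀ z ∈ (lawL n).support,
      ∀ v ∈ (lawL n).support, E (lawL n) (fun u => if Cond K x y z v u then 1 else 0) ≤
        zi x y + zi z v + ε / 2 := by
    intro x hx y hy z hz v hv
    have hz0 : 0 ≤ zi z v := by unfold zi; split_ifs <;> norm_num
    have hx0 : 0 ≤ zi x y := by unfold zi; split_ifs <;> norm_num
    have htriv : E (lawL n) (fun u => if Cond K x y z v u then (1 : ℝ) else 0) ≤ 1 := by
      have h1 : E (lawL n) (fun u => if Cond K x y z v u then (1 : ℝ) else 0) ≤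
          E (lawL n) (fun _ => 1) :=
        E_mono (lawL_nonneg n) (fun u => by split_ifs <;> norm_num)
      rwa [lawL_one] at h1
    by_cases h1 : ∀ p, cf x y p = 0
    · have : zi x y = 1 := by unfold zi; rw [if_pos h1]
      linarith
    by_cases h2 : ∀ p, cf z v p = 0
    · have : zi z v = 1 := by unfold zi; rw [if_pos h2]
      linarith
    push Not at h1 h2
    have hF := fun p hp => cf_support (reach n x hx) (reach n y hy) (p := p) hp
    have hG := fun p hp => cf_support (reach n z hz) (reach n v hv) (p := p) hp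
    obtain ⟨f, hf1, hf2, hf3⟩ := exists_max hF h1
    obtain ⟨g, hg1, hg2, hg3⟩ := exists_max hG h2
    let B : Finset ℤ := (Finset.Ioo (-(R : ℤ)) R).preimage (fun b : ℤ => f + 32 * b - g)
      (by intro a _ b _ hab; simp only at hab; omega)
    have hBm : ∀ b : ℤ, b ∈ B ↔ f + 32 * b - g ∈ Finset.Ioo (-(R : ℤ)) R := fun b =>
      Finset.mem_preimage
    have hB : (B.card : ℝ) ≤ 2 * R := by
      have h3 : B.card ≤ (Finset.Ioo (-(R : ℤ)) R).card :=
        Finset.card_le_card_of_injOn (fun b : ℤ => f + 32 * b - g)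
          (fun b hb => (hBm b).1 hb) (by intro a _ b _ hab; simp only at hab; omega)
      rw [Int.card_Ioo] at h3
      have h4 : B.card ≤ 2 * R := by omega
      exact_mod_cast h4
    have h5 : E (lawL n) (fun u => if Cond K x y z v u then (1 : ℝ) else 0) ≤
        E (lawL n) (fun u => ∑ b ∈ B, if u.a = b then (1 : ℝ) else 0) := by
      refine E_mono_on (lawL_nonneg n) (fun u hu => ?_)
      rw [Finset.sum_ite_eq]
      by_cases hC : Cond K x y z v u
      · rw [if_pos hC, if_pos]
        rw [hBm, Finset.mem_Ioo, ← abs_lt]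
        by_contra hlt
        rw [not_lt] at hlt
        have hu1 := (reach n u hu).1
        have hnat : ((f + 32 * u.a - g).natAbs : ℤ) = |f + 32 * u.a - g| := Int.natCast_natAbs _
        have hge : R ≤ (f + 32 * u.a - g).natAbs := by
          have : (R : ℤ) ≤ ((f + 32 * u.a - g).natAbs : ℤ) := by rw [hnat]; exact hlt
          exact_mod_cast this
        have hle : (f + 32 * u.a - g).natAbs ≤ 41 * n := by
          have : ((f + 32 * u.a - g).natAbs : ℤ) ≤ ((41 * n : ℕ) : ℤ) := by
            rw [hnat]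
            rw [abs_le] at hf2 hg2 hu1 ⊢
            push_cast
            constructor <;> omega
          exact_mod_cast this
        obtain ⟨p, hp⟩ := not_cond (D := 32 * u.a) hf1 hf3 hg1 hg3
          (k := (f + 32 * u.a - g).natAbs) (by omega) hnat
        exact hp (hC _ (hK _ hge hle) p)
      · rw [if_neg hC]
        split_ifs <;> norm_num
    have h6 : E (lawL n) (fun u => ∑ b ∈ B, if u.a = b then (1 : ℝ) else 0) ≤ ε / 2 := by
      rw [E_sum_fun]
      calc _ ≤ ∑ _b ∈ B, ε / (4 * R) := Finset.sum_le_sum (fun b _ => hn2 b)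
        _ = B.card * (ε / (4 * R)) := by rw [Finset.sum_const, nsmul_eq_mul]
        _ ≤ (2 * R) * (ε / (4 * R)) := by
            apply mul_le_mul_of_nonneg_right hB (by positivity)
        _ = ε / 2 := by
            have : (R : ℝ) ≠ 0 := by positivity
            field_simp
            norm_num
    linarith
  have h7 : pK K n ≤ E (lawL n) (fun x => E (lawL n) (fun y => E (lawL n) (fun z =>
      E (lawL n) (fun v => zi x y + zi z v + ε / 2)))) := by
    unfold pK
    exact E_mono_on (lawL_nonneg n) (fun x hx => E_mono_on (lawL_nonneg n) (fun y hy =>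
      E_mono_on (lawL_nonneg n) (fun z hz => E_mono_on (lawL_nonneg n) (fun v hv =>
        key x hx y hy z hz v hv))))
  refine h7.trans ?_
  have e1 : ∀ (c : ℝ), E (lawL n) (fun _ => c) = c := fun c => by rw [E_const, lawL_one, one_mul]
  have e2 : ∀ x y : Wr L2, E (lawL n) (fun z => E (lawL n) (fun v => zi x y + zi z v + ε / 2)) =
      zi x y + (E (lawL n) (fun z => E (lawL n) (fun v => zi z v)) + ε / 2) := by
    intro x y
    have : ∀ z : Wr L2, E (lawL n) (fun v => zi x y + zi z v + ε / 2) =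
        zi x y + (E (lawL n) (fun v => zi z v) + ε / 2) := by
      intro z
      rw [E_add_fun, E_add_fun, e1, e1]
      ring
    simp only [this]
    rw [E_add_fun, e1, E_add_fun, e1]
  simp only [e2]
  have e3 : ∀ x : Wr L2, E (lawL n) (fun y => zi x y +
      (E (lawL n) (fun z => E (lawL n) (fun v => zi z v)) + ε / 2)) =
      E (lawL n) (fun y => zi x y) +
        (E (lawL n) (fun z => E (lawL n) (fun v => zi z v)) + ε / 2) := by
    intro x
    rw [E_add_fun, e1]
  simp only [e3]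
  rw [E_add_fun, e1]
  linarith

/-! ### The sparse regime -/

theorem cf_support' {A : ℝ} {x y : Wr L2}
    (hx : |(x.a : ℝ)| ≤ A ∧ ∀ p : ℤ, A < |(p : ℝ)| → x.f p = 1)
    (hy : |(y.a : ℝ)| ≤ A ∧ ∀ p : ℤ, A < |(p : ℝ)| → y.f p = 1) {p : ℤ} (h : cf x y p ≠ 0) :
    |(p : ℝ)| ≤ 2 * A := by
  by_contra hlt
  rw [not_le] at hlt
  apply h
  unfold cf
  obtain ⟨hx1, hx2⟩ := hx
  obtain ⟨hy1, hy2⟩ := hy
  rw [abs_le] at hx1 hy1
  have h0 : 0 ≤ A := by linarith
  rw [comm_f, hx2 p (by linarith), hy2 p (by linarith), hy2 (p - x.a), hx2 (p - y.a)]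
  · simp
  · push_cast
    rw [lt_abs] at hlt ⊢
    rcases hlt with h1 | h1
    · left; linarith
    · right; linarith
  · push_cast
    rw [lt_abs] at hlt ⊢
    rcases hlt with h1 | h1
    · left; linarith
    · right; linarith

theorem sparse {n R : ℕ} (hn : 1 ≤ n) (hR : R ^ 2 ≤ n) {K : Set ℕ}
    (hK : ∀ k ∈ K, k ≤ R ∨ 41 * n ≤ k) : 1 / 16 ≤ pK K n := by
  classical
  have hn0 : (0 : ℝ) < n := by exact_mod_cast hn
  set s := Real.sqrt n with hs
  have hs0 : 0 < s := Real.sqrt_pos.2 hn0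
  have hs2 : s ^ 2 = n := Real.sq_sqrt hn0.le
  have hs1 : 1 ≤ s := by
    rw [hs, ← Real.sqrt_one]
    exact Real.sqrt_le_sqrt (by exact_mod_cast hn)
  have hsn : s ≤ n := by nlinarith
  have hRs : (R : ℝ) ≤ s := by
    rw [hs]
    apply Real.le_sqrt_of_sq_le
    exact_mod_cast hR
  let far : Wr L2 → ℝ := fun u => if (n : ℝ) < 8 * (u.a : ℝ) ^ 2 then 1 else 0
  have key : ∀ x y z v : Wr L2, ∀ u ∈ (lawL n).support,
      rho (2 * s) x * (rho (2 * s) y * (rho (2 * s) z * (rho (2 * s) v * far u))) ≤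
        if Cond K x y z v u then 1 else 0 := by
    intro x y z v u hu
    unfold rho
    by_cases hx : |(x.a : ℝ)| ≤ 2 * s ∧ ∀ p : ℤ, 2 * s < |(p : ℝ)| → x.f p = 1
    swap
    · rw [if_neg hx, zero_mul]; split_ifs <;> norm_num
    by_cases hy : |(y.a : ℝ)| ≤ 2 * s ∧ ∀ p : ℤ, 2 * s < |(p : ℝ)| → y.f p = 1
    swap
    · rw [if_neg hy, zero_mul, mul_zero]; split_ifs <;> norm_num
    by_cases hz : |(z.a : ℝ)| ≤ 2 * s ∧ ∀ p : ℤ, 2 * s < |(p : ℝ)| → z.f p = 1
    swap
    · rw [if_neg hz, zero_mul, mul_zero, mul_zero]; split_ifs <;> norm_num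
    by_cases hv : |(v.a : ℝ)| ≤ 2 * s ∧ ∀ p : ℤ, 2 * s < |(p : ℝ)| → v.f p = 1
    swap
    · rw [if_neg hv, zero_mul, mul_zero, mul_zero, mul_zero]; split_ifs <;> norm_num
    by_cases hfu : (n : ℝ) < 8 * (u.a : ℝ) ^ 2
    swap
    · simp only [far]
      rw [if_neg hfu, mul_zero, mul_zero, mul_zero, mul_zero]; split_ifs <;> norm_num
    simp only [far]
    rw [if_pos hx, if_pos hy, if_pos hz, if_pos hv, if_pos hfu, if_pos]
    · norm_num
    -- the condition
    have hD : 11 * s < 32 * |(u.a : ℝ)| := by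
      have h1 : (11 * s) ^ 2 < (32 * |(u.a : ℝ)|) ^ 2 := by
        rw [mul_pow, mul_pow, sq_abs, hs2]
        nlinarith
      exact lt_of_pow_lt_pow_left₀ 2 (by positivity) h1
    have hu1 : |(u.a : ℝ)| ≤ n := by
      have := (reach n u hu).1
      exact_mod_cast this
    have hD2 : |((32 * u.a : ℤ) : ℝ)| = 32 * |(u.a : ℝ)| := by
      push_cast
      rw [abs_mul]
      norm_num
    intro k hk p
    have hkk : (k : ℝ) ≤ s ∨ 41 * (n : ℝ) ≤ k := by
      rcases hK k hk with h | h
      · left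
        have : (k : ℝ) ≤ R := by exact_mod_cast h
        linarith
      · right
        exact_mod_cast h
    have hk0 : (0 : ℝ) ≤ k := Nat.cast_nonneg k
    have far2 : ∀ e : ℝ, |e| ≤ 8 * s → |((32 * u.a : ℤ) : ℝ)| ≠ |(k : ℝ) + e| := by
      intro e he h
      rw [hD2] at h
      rw [abs_le] at he
      rcases hkk with h1 | h1
      · have : |(k : ℝ) + e| ≤ 9 * s := by
          rw [abs_le]
          constructor <;> linarith
        linarith
      · have h2 : (k : ℝ) + e ≤ |(k : ℝ) + e| := le_abs_self _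
        linarith
    have e1 : cf x y (p - 32 * u.a) * cf z v (p - k) = 0 := by
      by_contra hne
      have h1 := cf_support' hx hy (left_ne_zero_of_mul hne)
      have h2 := cf_support' hz hv (right_ne_zero_of_mul hne)
      push_cast at h1 h2
      rw [abs_le] at h1 h2
      refine far2 ((32 * u.a : ℤ) - (k : ℝ)) ?_ ?_
      · push_cast
        rw [abs_le]
        constructor <;> linarith
      · congr 1
        ring
    have e2 : cf z v p * cf x y (p - k - 32 * u.a) = 0 := by
      by_contra hne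
      have h1 := cf_support' hz hv (left_ne_zero_of_mul hne)
      have h2 := cf_support' hx hy (right_ne_zero_of_mul hne)
      push_cast at h1 h2
      rw [abs_le] at h1 h2
      refine far2 (-((32 * u.a : ℤ) : ℝ) - (k : ℝ)) ?_ ?_
      · push_cast
        rw [abs_le]
        constructor <;> linarith
      · rw [← abs_neg]
        congr 1
        ring
    rw [e1, e2]
  have h1 : E (lawL n) (fun x => E (lawL n) (fun y => E (lawL n) (fun z => E (lawL n) (fun v =>
      E (lawL n) (fun u => rho (2 * s) x * (rho (2 * s) y * (rho (2 * s) z * (rho (2 * s) v *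
        far u)))))))) ≤ pK K n := by
    unfold pK
    exact E_mono (lawL_nonneg n) (fun x => E_mono (lawL_nonneg n) (fun y =>
      E_mono (lawL_nonneg n) (fun z => E_mono (lawL_nonneg n) (fun v =>
        E_mono_on (lawL_nonneg n) (fun u hu => key x y z v u hu)))))
  refine le_trans ?_ h1
  simp only [E_const_mul]
  simp only [E_mul_const]
  have h2 : 11 / 12 ≤ E (lawL n) (rho (2 * s)) := range_prob n hn
  have h3 : 1 / 8 ≤ E (lawL n) far := far_prob n hn
  calc (1 : ℝ) / 16 ≤ 11 / 12 * (11 / 12 * (11 / 12 * (11 / 12 * (1 / 8)))) := by norm_num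
    _ ≤ _ := by
        have h4 : 0 ≤ E (lawL n) (rho (2 * s)) := by linarith
        have h5 : 0 ≤ E (lawL n) far := by linarith
        gcongr

/-! ### An oscillating sequence -/

/-- There is a set for which the probabilities oscillate. -/
theorem exists_osc : ∃ K : Set ℕ, 0 ∉ K ∧
    (∀ m : ℕ, ∃ n, m ≤ n ∧ pK K n ≤ 1 / 32) ∧ (∀ m : ℕ, ∃ n, m ≤ n ∧ 1 / 16 ≤ pK K n) := by
  have hd : ∀ R : ℕ, ∃ N, ∀ n, N ≤ n → ∀ K : Set ℕ,
      (∀ k : ℕ, R + 1 ≤ k → k ≤ 41 * n → k ∈ K) → pK K n ≤ 1 / 32 := fun R =>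
    dense (by norm_num) (R + 1) (by omega)
  choose N hN using hd
  -- `lo j`, `mid j = 41 (N (lo j) + lo j)`, sparse time `(mid j)^2 + 1`, `lo (j+1) = 41 (...)`
  let nd : ℕ → ℕ := fun R => N R + R + 1
  let hi : ℕ → ℕ := fun R => 41 * nd R
  let ns : ℕ → ℕ := fun R => (hi R) ^ 2 + 1
  let lo : ℕ → ℕ := fun j => Nat.rec 0 (fun _ R => 41 * ns R) j
  have hlo : ∀ j, lo (j + 1) = 41 * ns (lo j) := fun j => rfl
  have h1 : ∀ R, R < nd R := fun R => by simp only [nd]; omega
  have h2 : ∀ R, nd R ≤ hi R := fun R => by simp only [hi]; omega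
  have h3 : ∀ R, hi R < ns R := fun R => by
    simp only [ns]
    have : hi R ≤ (hi R) ^ 2 := Nat.le_self_pow (by norm_num) _
    omega
  have hmono : StrictMono lo := by
    apply strictMono_nat_of_lt_succ
    intro j
    rw [hlo]
    have := h1 (lo j)
    have := h2 (lo j)
    have := h3 (lo j)
    omega
  have hge : ∀ j, j ≤ lo j := fun j => hmono.id_le j
  refine ⟨{k | ∃ j, lo j + 1 ≤ k ∧ k ≤ hi (lo j)}, ?_, fun m => ?_, fun m => ?_⟩
  · rintro ⟨j, hj, _⟩
    omega
  · refine ⟨nd (lo m), ?_, ?_⟩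
    · have := hge m
      have := h1 (lo m)
      omega
    · apply hN (lo m) _ (by simp only [nd]; omega)
      intro k hk1 hk2
      exact ⟨m, hk1, hk2⟩
  · refine ⟨ns (lo m), ?_, ?_⟩
    · have := hge m
      have := h1 (lo m)
      have := h2 (lo m)
      have := h3 (lo m)
      omega
    · apply sparse (R := hi (lo m)) (by simp only [ns]; omega) (by simp only [ns]; omega)
      rintro k ⟨j, hj1, hj2⟩
      rcases le_or_gt j m with hjm | hjm
      · left
        rcases hjm.eq_or_lt with rfl | hlt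
        · exact hj2
        · have h4 : lo (j + 1) ≤ lo m := hmono.monotone hlt
          rw [hlo] at h4
          have := h3 (lo j)
          have := h1 (lo m)
          have := h2 (lo m)
          omega
      · right
        have h4 : lo (m + 1) ≤ lo j := hmono.monotone hjm
        rw [hlo] at h4
        omega

end Q27.Walk
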