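import Pool.Agent.Q27.Walk.Osc

/-!
# The group for which the probabilities oscillate
-/

set_option autoImplicit false
set_option linter.unusedSectionVars false

open Finset Filter Topology
open scoped commutatorElement

namespace Q27.Walk

/-! ### The Heisenberg group over the field with two elements -/

/-- Unitriangular `3 × 3` matrices over the field with two elements. -/
@[ext] structure Heis where
  x : ZMod 2
  y : ZMod 2
  z : ZMod 2

namespace Heis

instance : Mul Heis := ⟨fun g h => ⟨g.x + h.x, g.y + h.y, g.z + h.z + g.x * h.y⟩⟩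
instance : One Heis := ⟨⟨0, 0, 0⟩⟩
instance : Inv Heis := ⟨fun g => ⟨-g.x, -g.y, -g.z + g.x * g.y⟩⟩

@[simp] theorem mul_x (g h : Heis) : (g * h).x = g.x + h.x := rfl
@[simp] theorem mul_y (g h : Heis) : (g * h).y = g.y + h.y := rfl
@[simp] theorem mul_z (g h : Heis) : (g * h).z = g.z + h.z + g.x * h.y := rfl
@[simp] theorem one_x : (1 : Heis).x = 0 := rfl
@[simp] theorem one_y : (1 : Heis).y = 0 := rfl
@[simp] theorem one_z : (1 : Heis).z = 0 := rfl
@[simp] theorem inv_x (g : Heis) : (g⁻¹).x = -g.x := rfl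
@[simp] theorem inv_y (g : Heis) : (g⁻¹).y = -g.y := rfl
@[simp] theorem inv_z (g : Heis) : (g⁻¹).z = -g.z + g.x * g.y := rfl

instance : Group Heis :=
  Group.ofLeftAxioms
    (by intro a b c; ext <;> simp only [mul_x, mul_y, mul_z] <;> ring)
    (by intro a; ext <;> simp)
    (by intro a
        ext <;> simp only [mul_x, mul_y, mul_z, inv_x, inv_y, inv_z, one_x, one_y, one_z] <;> ring)

theorem commute_iff (g h : Heis) : g * h = h * g ↔ g.x * h.y = h.x * g.y := by
  constructor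
  · intro e
    have := congrArg Heis.z e
    simp only [mul_z] at this
    linear_combination this
  · intro e
    ext
    · simp [add_comm]
    · simp [add_comm]
    · simp only [mul_z]
      linear_combination e

end Heis

/-! ### The ambient group -/

/-- The product of the lamplighter group and wreath products of the Heisenberg group. -/
abbrev WK : Type := Wr L2 × (ℕ → Wr Heis)

open Classical in
/-- The lamp generator. -/
noncomputable def aK (K : Set ℕ) : WK :=
  (lamp 0 aa, fun k => lamp 0 ⟨1, 0, 0⟩ * (if k ∈ K then lamp (k : ℤ) ⟨0, 1, 0⟩ else 1))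

/-- The translations. -/
def tK (s : ℤ) : WK := (sh s, fun _ => sh s)

/-- Parities. -/
def par (x : WK) (p : ℤ) : ZMod 2 := Multiplicative.toAdd (x.1.f p)

open Classical in
/-- The subgroup of the elements whose components are compatible. -/
noncomputable def HK (K : Set ℕ) : Subgroup WK where
  carrier := {x | ∀ k, (x.2 k).a = x.1.a ∧ ∀ p, ((x.2 k).f p).x = par x p ∧
    ((x.2 k).f p).y = if k ∈ K then par x (p - k) else 0}
  mul_mem' := by
    intro x y hx hy k
    obtain ⟨hx1, hx2⟩ := hx k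
    obtain ⟨hy1, hy2⟩ := hy k
    refine ⟨?_, fun p => ⟨?_, ?_⟩⟩
    · change (x.2 k).a + (y.2 k).a = x.1.a + y.1.a
      rw [hx1, hy1]
    · change ((x.2 k).f p).x + ((y.2 k).f (p - (x.2 k).a)).x = _
      rw [(hx2 p).1, (hy2 _).1, hx1]
      rfl
    · change ((x.2 k).f p).y + ((y.2 k).f (p - (x.2 k).a)).y = _
      rw [(hx2 p).2, (hy2 _).2, hx1]
      split_ifs
      · change par x (p - k) + par y (p - x.1.a - k) = par x (p - k) + par y (p - k - x.1.a)
        congr 2
        ring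
      · simp
  one_mem' := by
    intro k
    refine ⟨rfl, fun p => ⟨rfl, ?_⟩⟩
    split_ifs <;> rfl
  inv_mem' := by
    intro x hx k
    obtain ⟨hx1, hx2⟩ := hx k
    refine ⟨?_, fun p => ⟨?_, ?_⟩⟩
    · change -(x.2 k).a = -x.1.a
      rw [hx1]
    · change -((x.2 k).f (p + (x.2 k).a)).x = _
      rw [(hx2 _).1, hx1]
      rfl
    · change -((x.2 k).f (p + (x.2 k).a)).y = _
      rw [(hx2 _).2, hx1]
      split_ifs
      · change -par x (p + x.1.a - k) = -par x (p - k + x.1.a)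
        congr 2
        ring
      · simp

theorem aK_mem (K : Set ℕ) : aK K ∈ HK K := by
  classical
  intro k
  have hp1 : ∀ p, par (aK K) p = if p = 0 then 1 else 0 := by
    intro p
    unfold par aK
    simp only [lamp_f]
    split_ifs <;> rfl
  refine ⟨?_, fun p => ⟨?_, ?_⟩⟩
  · unfold aK
    simp only [mul_a, lamp_a, zero_add]
    split_ifs <;> rfl
  · rw [hp1]
    unfold aK
    simp only [mul_f, lamp_f, lamp_a, sub_zero, Heis.mul_x]
    by_cases h1 : p = 0 <;> by_cases h2 : k ∈ K <;> simp only [h1, h2, if_true, if_false, one_f,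
      Heis.one_x, lamp_f] <;> (try split_ifs) <;> simp
  · rw [hp1]
    unfold aK
    simp only [mul_f, lamp_f, lamp_a, sub_zero, Heis.mul_y]
    by_cases h2 : k ∈ K
    · simp only [h2, if_true, lamp_f]
      by_cases h1 : p = 0
      · by_cases h3 : p = k
        · rw [if_pos h1, if_pos h3, if_pos (by omega)]; simp
        · rw [if_pos h1, if_neg h3, if_neg (by omega)]; simp
      · by_cases h3 : p = k
        · rw [if_neg h1, if_pos h3, if_pos (by omega)]; simp
        · rw [if_neg h1, if_neg h3, if_neg (by omega)]; simp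
    · simp only [h2, if_false, one_f, Heis.one_y]
      split_ifs <;> simp

theorem tK_mem (K : Set ℕ) (s : ℤ) : tK s ∈ HK K := by
  classical
  intro k
  refine ⟨rfl, fun p => ⟨rfl, ?_⟩⟩
  split_ifs <;> rfl

theorem aK_sq {K : Set ℕ} (hK : 0 ∉ K) : aK K * aK K = 1 := by
  classical
  have hh : ∀ (q : ℤ) (h : Heis), h * h = 1 → lamp q h * lamp q h = 1 := by
    intro q h hh
    rw [lamp_mul, hh, lamp_one]
  have h1 : (⟨1, 0, 0⟩ : Heis) * ⟨1, 0, 0⟩ = 1 := by ext <;> simp <;> rfl
  have h2 : (⟨0, 1, 0⟩ : Heis) * ⟨0, 1, 0⟩ = 1 := by ext <;> simp <;> rfl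
  refine Prod.ext ?_ (funext fun k => ?_)
  · change lamp 0 aa * lamp 0 aa = 1
    rw [lamp_mul, aa_mul, lamp_one]
  · change lamp 0 (⟨1, 0, 0⟩ : Heis) * (if k ∈ K then lamp (k : ℤ) ⟨0, 1, 0⟩ else 1) *
      (lamp 0 (⟨1, 0, 0⟩ : Heis) * (if k ∈ K then lamp (k : ℤ) ⟨0, 1, 0⟩ else 1)) = 1
    split_ifs with hk
    · have hk0 : (k : ℤ) ≠ 0 := by
        intro h
        apply hK
        have : k = 0 := by omega
        rwa [this] at hk
      calc lamp 0 (⟨1, 0, 0⟩ : Heis) * lamp (k : ℤ) ⟨0, 1, 0⟩ *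
            (lamp 0 (⟨1, 0, 0⟩ : Heis) * lamp (k : ℤ) ⟨0, 1, 0⟩)
          = lamp 0 (⟨1, 0, 0⟩ : Heis) * (lamp (k : ℤ) ⟨0, 1, 0⟩ * lamp 0 (⟨1, 0, 0⟩ : Heis)) *
              lamp (k : ℤ) ⟨0, 1, 0⟩ := by simp only [mul_assoc]
        _ = (lamp 0 (⟨1, 0, 0⟩ : Heis) * lamp 0 (⟨1, 0, 0⟩ : Heis)) *
              (lamp (k : ℤ) ⟨0, 1, 0⟩ * lamp (k : ℤ) ⟨0, 1, 0⟩) := by
            rw [lamp_comm hk0]; simp only [mul_assoc]
        _ = 1 := by rw [hh _ _ h1, hh _ _ h2, one_mul]
    · rw [mul_one, hh _ _ h1]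

theorem tK_inv (s : ℤ) : (tK s)⁻¹ = tK (-s) := by
  refine Prod.ext ?_ (funext fun k => ?_)
  · change (sh s : Wr L2)⁻¹ = sh (-s)
    ext p <;> simp
  · change (sh s : Wr Heis)⁻¹ = sh (-s)
    ext p <;> simp

theorem comm_eq_one_iff {K : Set ℕ} {c d : WK} (hc : c ∈ HK K) (hd : d ∈ HK K)
    (hc0 : c.1.a = 0) (hd0 : d.1.a = 0) :
    ⁅c, d⁆ = 1 ↔ ∀ k ∈ K, ∀ p : ℤ, par c p * par d (p - k) = par d p * par c (p - k) := by
  classical
  rw [commutatorElement_eq_one_iff_mul_comm]
  constructor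
  · intro h k hk p
    have h1 := congrArg (fun w => Wr.f (w.2 k) p) h
    change (c.2 k).f p * (d.2 k).f (p - (c.2 k).a) = (d.2 k).f p * (c.2 k).f (p - (d.2 k).a) at h1
    rw [(hc k).1, (hd k).1, hc0, hd0, sub_zero, Heis.commute_iff] at h1
    rw [((hc k).2 p).1, ((hc k).2 p).2, ((hd k).2 p).1, ((hd k).2 p).2, if_pos hk, if_pos hk] at h1
    exact h1
  · intro h
    refine Prod.ext ?_ (funext fun k => ?_)
    · ext p
      · change c.1.f p * d.1.f (p - c.1.a) = d.1.f p * c.1.f (p - d.1.a)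
        rw [hc0, hd0, sub_zero, mul_comm]
      · change c.1.a + d.1.a = d.1.a + c.1.a
        rw [add_comm]
    · apply Wr.ext
      · funext p
        change (c.2 k).f p * (d.2 k).f (p - (c.2 k).a) = (d.2 k).f p * (c.2 k).f (p - (d.2 k).a)
        rw [(hc k).1, (hd k).1, hc0, hd0, sub_zero, Heis.commute_iff,
          ((hc k).2 p).1, ((hc k).2 p).2, ((hd k).2 p).1, ((hd k).2 p).2]
        by_cases hk : k ∈ K
        · rw [if_pos hk, if_pos hk]
          exact h k hk p
        · rw [if_neg hk, if_neg hk, mul_zero, mul_zero]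
      · change (c.2 k).a + (d.2 k).a = (d.2 k).a + (c.2 k).a
        rw [add_comm]

theorem pow_a {L : Type*} [Group L] (u : Wr L) (m : ℕ) : (u ^ m).a = m * u.a := by
  induction m with
  | zero => simp
  | succ m ih => rw [pow_succ, mul_a, ih]; push_cast; ring

theorem conj_f (h c : Wr L2) (hc : c.a = 0) (p : ℤ) : (h * c * h⁻¹).f p = c.f (p - h.a) := by
  simp only [mul_f, mul_a, inv_f, hc, add_zero, sub_add_cancel]
  rw [mul_comm (h.f p), mul_assoc, mul_inv_cancel, mul_one]

theorem conj_a (h c : Wr L2) (hc : c.a = 0) : (h * c * h⁻¹).a = 0 := by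
  simp only [mul_a, inv_a, hc]; ring

/-- The key equivalence. -/
theorem word_iff {K : Set ℕ} {x y z v u : WK} (hx : x ∈ HK K) (hy : y ∈ HK K) (hz : z ∈ HK K)
    (hv : v ∈ HK K) (hu : u ∈ HK K) :
    ⁅u ^ 32 * ⁅x, y⁆ * (u ^ 32)⁻¹, ⁅z, v⁆⁆ = 1 ↔ Cond K x.1 y.1 z.1 v.1 u.1 := by
  have hc : u ^ 32 * ⁅x, y⁆ * (u ^ 32)⁻¹ ∈ HK K := by
    rw [commutatorElement_def]
    exact mul_mem (mul_mem (pow_mem hu _) (mul_mem (mul_mem (mul_mem hx hy) (inv_mem hx))
      (inv_mem hy))) (inv_mem (pow_mem hu _))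
  have hd : ⁅z, v⁆ ∈ HK K := by
    rw [commutatorElement_def]
    exact mul_mem (mul_mem (mul_mem hz hv) (inv_mem hz)) (inv_mem hv)
  have e1 : (u ^ 32 * ⁅x, y⁆ * (u ^ 32)⁻¹).1 = u.1 ^ 32 * ⁅x.1, y.1⁆ * (u.1 ^ 32)⁻¹ := by
    simp only [commutatorElement_def, Prod.fst_mul, Prod.fst_inv, Prod.pow_fst]
  have e2 : (⁅z, v⁆ : WK).1 = ⁅z.1, v.1⁆ := rfl
  have ha : ∀ s t : Wr L2, (⁅s, t⁆).a = 0 := comm_a
  rw [comm_eq_one_iff hc hd (by rw [e1]; exact conj_a _ _ (ha _ _)) (by rw [e2]; exact ha _ _)]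
  have hp1 : ∀ p, par (u ^ 32 * ⁅x, y⁆ * (u ^ 32)⁻¹) p = cf x.1 y.1 (p - 32 * u.1.a) := by
    intro p
    unfold par cf
    rw [e1, conj_f _ _ (ha _ _), pow_a]
    rfl
  have hp2 : ∀ p, par ⁅z, v⁆ p = cf z.1 v.1 p := fun p => rfl
  unfold Cond
  simp only [hp1, hp2]

/-! ### The group -/

/-- The steps of the lazy walk. -/
noncomputable def stK (K : Set ℕ) (i : Fin 6) : WK := ![1, 1, 1, aK K, tK 1, tK (-1)] i

/-- The group. -/
abbrev GK (K : Set ℕ) : Type := (Subgroup.closure ({aK K, tK 1} : Set WK) : Subgroup WK)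

theorem GK_le (K : Set ℕ) : Subgroup.closure ({aK K, tK 1} : Set WK) ≤ HK K := by
  rw [Subgroup.closure_le]
  rintro _ (rfl | rfl)
  · exact aK_mem K
  · exact tK_mem K 1

/-- The lamp generator. -/
noncomputable def aG (K : Set ℕ) : GK K := ⟨aK K, Subgroup.subset_closure (by simp)⟩

/-- The translation. -/
noncomputable def tG (K : Set ℕ) : GK K := ⟨tK 1, Subgroup.subset_closure (by simp)⟩

/-- The steps of the lazy walk in the group. -/
noncomputable def stG (K : Set ℕ) (i : Fin 6) : GK K := ![1, 1, 1, aG K, tG K, (tG K)⁻¹] i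

/-- The projection to the lamplighter group. -/
noncomputable def prG (K : Set ℕ) : GK K →* Wr L2 :=
  (MonoidHom.fst (Wr L2) (ℕ → Wr Heis)).comp (Subgroup.subtype _)

theorem prG_stG (K : Set ℕ) (i : Fin 6) : prG K (stG K i) = st i := by
  fin_cases i
  · rfl
  · rfl
  · rfl
  · rfl
  · rfl
  · change (sh 1 : Wr L2)⁻¹ = sh (-1)
    ext p <;> simp

theorem closure_GK (K : Set ℕ) : Subgroup.closure ({aG K, tG K} : Set (GK K)) = ⊤ := by
  have h : ({aG K, tG K} : Set (GK K)) = ((↑) : GK K → WK) ⁻¹' {aK K, tK 1} := by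
    ext g
    simp only [Set.mem_insert_iff, Set.mem_singleton_iff, Set.mem_preimage]
    constructor
    · rintro (rfl | rfl)
      · exact Or.inl rfl
      · exact Or.inr rfl
    · rintro (h | h)
      · exact Or.inl (Subtype.ext h)
      · exact Or.inr (Subtype.ext h)
  rw [h]
  exact Subgroup.closure_closure_coe_preimage

/-- The word `[u³² [x, y] u⁻³², [z, v]]`. -/
def word : FreeGroup (Fin 5) :=
  ⁅FreeGroup.of (4 : Fin 5) ^ 32 * ⁅FreeGroup.of (0 : Fin 5), FreeGroup.of (1 : Fin 5)⁆ *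
    (FreeGroup.of (4 : Fin 5) ^ 32)⁻¹, ⁅FreeGroup.of (2 : Fin 5), FreeGroup.of (3 : Fin 5)⁆⁆

theorem lift_word {G : Type*} [Group G] (x y z v u : G) :
    FreeGroup.lift ![x, y, z, v, u] word = ⁅u ^ 32 * ⁅x, y⁆ * (u ^ 32)⁻¹, ⁅z, v⁆⁆ := by
  unfold word
  simp only [commutatorElement_def, map_mul, map_inv, map_pow, FreeGroup.lift_apply_of]
  rfl

theorem word_iffG {K : Set ℕ} (x y z v u : GK K) :
    FreeGroup.lift ![x, y, z, v, u] word = 1 ↔
      Cond K (prG K x) (prG K y) (prG K z) (prG K v) (prG K u) := by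
  rw [lift_word]
  have h1 := word_iff (GK_le K x.2) (GK_le K y.2) (GK_le K z.2) (GK_le K v.2) (GK_le K u.2)
  have h2 : ⁅u ^ 32 * ⁅x, y⁆ * (u ^ 32)⁻¹, ⁅z, v⁆⁆ = 1 ↔
      ⁅(u : WK) ^ 32 * ⁅(x : WK), (y : WK)⁆ * ((u : WK) ^ 32)⁻¹, ⁅(z : WK), (v : WK)⁆⁆ = 1 := by
    rw [← OneMemClass.coe_eq_one]
    simp only [commutatorElement_def, Subgroup.coe_mul, Subgroup.coe_inv, Subgroup.coe_pow]
  rw [h2]
  exact h1

open Classical in
theorem satProb_five {G : Type*} [Group G] (μ : G →₀ ℝ) (w : FreeGroup (Fin 5)) (n : ℕ) :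
    satProb μ w n = E (law μ n) (fun x => E (law μ n) (fun y => E (law μ n) (fun z =>
      E (law μ n) (fun v => E (law μ n) (fun u =>
        if FreeGroup.lift ![x, y, z, v, u] w = 1 then 1 else 0))))) := by
  unfold satProb
  have h1 : ∀ g : Fin 5 → G, (if FreeGroup.lift g w = 1 then ∏ i, law μ n (g i) else 0) =
      (∏ i, law μ n (g i)) * (if FreeGroup.lift g w = 1 then 1 else 0) := by
    intro g
    split_ifs <;> simp
  simp_rw [h1]
  rw [sum_pi_succ]
  congr 1; funext x
  rw [sum_pi_succ (Φ := fun g => if FreeGroup.lift (Fin.cons x g : Fin 5 → G) w = 1 then 1 else 0)]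
  congr 1; funext y
  rw [sum_pi_succ (Φ := fun g =>
    if FreeGroup.lift (Fin.cons x (Fin.cons y g) : Fin 5 → G) w = 1 then 1 else 0)]
  congr 1; funext z
  rw [sum_pi_succ (Φ := fun g =>
    if FreeGroup.lift (Fin.cons x (Fin.cons y (Fin.cons z g)) : Fin 5 → G) w = 1 then 1 else 0)]
  congr 1; funext v
  rw [sum_pi_succ (Φ := fun g =>
    if FreeGroup.lift (Fin.cons x (Fin.cons y (Fin.cons z (Fin.cons v g))) : Fin 5 → G) w = 1
      then 1 else 0)]
  congr 1; funext u
  rw [Finset.sum_eq_single (fun i : Fin 0 => i.elim0)]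
  · simp only [Finset.univ_eq_empty, Finset.prod_empty, one_mul]
    have h2 : (Fin.cons x (Fin.cons y (Fin.cons z (Fin.cons v (Fin.cons u
        (fun i : Fin 0 => i.elim0))))) : Fin 5 → G) = ![x, y, z, v, u] := by
      funext i
      fin_cases i <;> rfl
    rw [h2]
  · intro b _ hb
    exact absurd (Subsingleton.elim _ _) hb
  · intro h
    exact absurd (Fintype.mem_piFinset.2 (fun i : Fin 0 => i.elim0)) h

theorem satProb_eq (K : Set ℕ) (n : ℕ) : satProb (unif (stG K)) word n = pK K n := by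
  classical
  have h : ∀ φ : Wr L2 → ℝ, E (law (unif (stG K)) n) (fun g => φ (prG K g)) =
      E (lawL n) φ := by
    intro φ
    rw [← E_law_map (prG K) (stG K) n φ]
    simp only [prG_stG]
    rfl
  have e0 : satProb (unif (stG K)) word n = E (law (unif (stG K)) n) (fun x =>
      E (law (unif (stG K)) n) (fun y => E (law (unif (stG K)) n) (fun z =>
        E (law (unif (stG K)) n) (fun v => E (law (unif (stG K)) n) (fun u =>
          if Cond K (prG K x) (prG K y) (prG K z) (prG K v) (prG K u) then (1 : ℝ) else 0))))) := by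
    rw [satProb_five]
    congr 1; funext x; congr 1; funext y; congr 1; funext z; congr 1; funext v
    congr 1; funext u
    by_cases hh : FreeGroup.lift ![x, y, z, v, u] word = 1
    · rw [if_pos hh, if_pos ((word_iffG x y z v u).1 hh)]
    · rw [if_neg hh, if_neg (fun h' => hh ((word_iffG x y z v u).2 h'))]
  rw [e0]
  unfold pK
  have e1 : ∀ x y z v : Wr L2, E (law (unif (stG K)) n) (fun u =>
      if Cond K x y z v (prG K u) then (1 : ℝ) else 0) =
      E (lawL n) (fun u => if Cond K x y z v u then (1 : ℝ) else 0) :=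
    fun x y z v => h (fun u => if Cond K x y z v u then (1 : ℝ) else 0)
  simp only [e1]
  have e2 : ∀ x y z : Wr L2, E (law (unif (stG K)) n) (fun v =>
      E (lawL n) (fun u => if Cond K x y z (prG K v) u then (1 : ℝ) else 0)) =
      E (lawL n) (fun v => E (lawL n) (fun u => if Cond K x y z v u then (1 : ℝ) else 0)) :=
    fun x y z => h (fun v => E (lawL n) (fun u => if Cond K x y z v u then (1 : ℝ) else 0))
  simp only [e2]
  have e3 : ∀ x y : Wr L2, E (law (unif (stG K)) n) (fun z => E (lawL n) (fun v =>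
      E (lawL n) (fun u => if Cond K x y (prG K z) v u then (1 : ℝ) else 0))) =
      E (lawL n) (fun z => E (lawL n) (fun v =>
        E (lawL n) (fun u => if Cond K x y z v u then (1 : ℝ) else 0))) :=
    fun x y => h (fun z => E (lawL n) (fun v =>
      E (lawL n) (fun u => if Cond K x y z v u then (1 : ℝ) else 0)))
  simp only [e3]
  have e4 : ∀ x : Wr L2, E (law (unif (stG K)) n) (fun y => E (lawL n) (fun z =>
      E (lawL n) (fun v => E (lawL n) (fun u =>
        if Cond K x (prG K y) z v u then (1 : ℝ) else 0)))) =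
      E (lawL n) (fun y => E (lawL n) (fun z => E (lawL n) (fun v =>
        E (lawL n) (fun u => if Cond K x y z v u then (1 : ℝ) else 0)))) :=
    fun x => h (fun y => E (lawL n) (fun z => E (lawL n) (fun v =>
      E (lawL n) (fun u => if Cond K x y z v u then (1 : ℝ) else 0))))
  simp only [e4]
  exact h (fun x => E (lawL n) (fun y => E (lawL n) (fun z => E (lawL n) (fun v =>
      E (lawL n) (fun u => if Cond K x y z v u then (1 : ℝ) else 0)))))

end Q27.Walk
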