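import Pool.Agent.Q27.Walk.Decay

/-!
# Random walks on wreath products `L ≀ ℤ`
-/

set_option autoImplicit false
set_option linter.unusedSectionVars false

open Finset Filter Topology
open scoped commutatorElement

namespace Q27.Walk

/-- The (unrestricted) wreath product `L ≀ ℤ`: pairs `(f, a)` with `f : ℤ → L` and `a : ℤ`. -/
@[ext] structure Wr (L : Type*) where
  f : ℤ → L
  a : ℤ

section group

variable {L : Type*} [Group L]

/-- `(f, a) (g, b) = (p ↦ f p * g (p - a), a + b)`. -/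
instance : Mul (Wr L) := ⟨fun x y => ⟨fun p => x.f p * y.f (p - x.a), x.a + y.a⟩⟩

instance : One (Wr L) := ⟨⟨fun _ => 1, 0⟩⟩

instance : Inv (Wr L) := ⟨fun x => ⟨fun p => (x.f (p + x.a))⁻¹, -x.a⟩⟩

@[simp] theorem mul_f (x y : Wr L) (p : ℤ) : (x * y).f p = x.f p * y.f (p - x.a) := rfl
@[simp] theorem mul_a (x y : Wr L) : (x * y).a = x.a + y.a := rfl
@[simp] theorem one_f (p : ℤ) : (1 : Wr L).f p = 1 := rfl
@[simp] theorem one_a : (1 : Wr L).a = 0 := rfl
@[simp] theorem inv_f (x : Wr L) (p : ℤ) : (x⁻¹).f p = (x.f (p + x.a))⁻¹ := rfl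
@[simp] theorem inv_a (x : Wr L) : (x⁻¹).a = -x.a := rfl

instance : Group (Wr L) :=
  Group.ofLeftAxioms
    (by
      intro x y z
      ext p
      · simp only [mul_f, mul_a, mul_assoc, sub_sub]
      · simp [add_assoc])
    (by
      intro x
      ext p <;> simp)
    (by
      intro x
      ext p <;> simp)

/-- The lamp at `q` is changed. -/
def lamp (q : ℤ) (v : L) : Wr L := ⟨fun p => if p = q then v else 1, 0⟩

/-- Translation. -/
def sh (s : ℤ) : Wr L := ⟨fun _ => 1, s⟩

@[simp] theorem lamp_f (q : ℤ) (v : L) (p : ℤ) : (lamp q v).f p = if p = q then v else 1 := rfl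
@[simp] theorem lamp_a (q : ℤ) (v : L) : (lamp q v).a = 0 := rfl
@[simp] theorem sh_f (s p : ℤ) : (sh s : Wr L).f p = 1 := rfl
@[simp] theorem sh_a (s : ℤ) : (sh s : Wr L).a = s := rfl

theorem lamp_comm {q : ℤ} (hq : q ≠ 0) (v ℓ : L) : lamp q v * lamp 0 ℓ = lamp 0 ℓ * lamp q v := by
  ext p
  · simp only [mul_f, lamp_f, lamp_a, sub_zero]
    by_cases h1 : p = q
    · subst h1
      simp [hq]
    · simp [h1]
  · simp

theorem lamp_mul (q : ℤ) (v ℓ : L) : lamp q v * lamp q ℓ = lamp q (v * ℓ) := by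
  ext p
  · simp only [mul_f, lamp_f, lamp_a, sub_zero]
    split_ifs <;> simp
  · simp

theorem lamp_sh (q s : ℤ) (v : L) : lamp q v * sh s = sh s * lamp (q - s) v := by
  ext p
  · simp only [mul_f, lamp_f, sh_f, sh_a, mul_one, one_mul]
    by_cases h1 : p = q
    · simp [h1]
    · rw [if_neg h1, if_neg (by omega)]
  · simp

theorem lamp_one (q : ℤ) : lamp q (1 : L) = 1 := by
  ext p
  · simp
  · simp

/-- `L`-valued functions supported in `[0, K)`. -/
def bs (K : ℕ) (v : ℤ → L) : Wr L := ⟨fun p => if 0 ≤ p ∧ p < K then v p else 1, 0⟩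

@[simp] theorem bs_f (K : ℕ) (v : ℤ → L) (p : ℤ) :
    (bs K v).f p = if 0 ≤ p ∧ p < K then v p else 1 := rfl
@[simp] theorem bs_a (K : ℕ) (v : ℤ → L) : (bs K v).a = 0 := rfl

theorem bs_zero (v : ℤ → L) : bs 0 v = 1 := by
  ext p
  · simp only [bs_f, one_f]
    rw [if_neg (by push_cast; omega)]
  · simp

theorem bs_succ (K : ℕ) (v : ℤ → L) : bs (K + 1) v = bs K v * lamp K (v K) := by
  ext p
  · simp only [bs_f, mul_f, bs_a, sub_zero, lamp_f]
    by_cases h1 : p = K
    · subst h1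
      simp
    · rw [if_neg h1, mul_one]
      by_cases h2 : 0 ≤ p ∧ p < K
      · rw [if_pos h2, if_pos ⟨h2.1, by push_cast; omega⟩]
      · rw [if_neg h2, if_neg (by push_cast; omega)]
  · simp

theorem comm_f (x y : Wr L) (p : ℤ) :
    (⁅x, y⁆).f p = x.f p * y.f (p - x.a) * (x.f (p - y.a))⁻¹ * (y.f p)⁻¹ := by
  rw [commutatorElement_def]
  simp only [mul_f, mul_a, inv_f, inv_a]
  have h1 : p - (x.a + y.a) + x.a = p - y.a := by ring
  have h2 : p - (x.a + y.a + -x.a) + y.a = p := by ring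
  rw [h1, h2]

theorem comm_a (x y : Wr L) : (⁅x, y⁆).a = 0 := by
  rw [commutatorElement_def]
  simp only [mul_a, inv_a]
  ring

end group

section symm

variable {L : Type*} [Group L] [Fintype L]

/-- The steps of the symmetric walk: the elements of `L` at `0`, and the translations by `1` and
`-1`. -/
def stepS : L ⊕ Fin 2 → Wr L
  | Sum.inl ℓ => lamp 0 ℓ
  | Sum.inr i => if i = 0 then sh 1 else sh (-1)

theorem op_stepS (φ : Wr L → ℝ) (g : Wr L) :
    op (stepS (L := L)) φ g =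
      (∑ ℓ : L, φ (g * lamp 0 ℓ) + φ (g * sh 1) + φ (g * sh (-1))) / ((Fintype.card L : ℝ) + 2) := by
  unfold op
  rw [Fintype.sum_sum_type, Fintype.card_sum, Fin.sum_univ_two]
  simp only [stepS, if_true, Fintype.card_fin, Fin.isValue, one_ne_zero, if_false]
  push_cast
  ring

theorem card_pos' : (0 : ℝ) < Fintype.card L := by exact_mod_cast Fintype.card_pos

theorem lamp_bound {φ : Wr L → ℝ} (hφ : ∀ g, |φ g| ≤ 1) (n : ℕ) (g : Wr L) (q : ℤ) (v : L) :
    |((op (stepS (L := L)))^[n] φ) (g * lamp q v) - ((op (stepS (L := L)))^[n] φ) g| ≤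
      2 * hh (Fintype.card L) n q := by
  have hm : (0 : ℝ) < Fintype.card L := card_pos'
  induction n generalizing g q v with
  | zero =>
    rw [hh_zero]
    simp only [Function.iterate_zero, id]
    have := abs_sub (φ (g * lamp q v)) (φ g)
    linarith [hφ (g * lamp q v), hφ g]
  | succ n ih =>
    rw [Function.iterate_succ_apply']
    set ψ := (op (stepS (L := L)))^[n] φ with hψ
    rw [op_stepS, op_stepS, ← sub_div, abs_div, abs_of_pos (show (0 : ℝ) < Fintype.card L + 2 by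
      linarith), hh_succ, ← mul_div_assoc]
    apply div_le_div_of_nonneg_right _ (by linarith)
    have e1 : g * lamp q v * sh 1 = g * sh 1 * lamp (q - 1) v := by
      rw [mul_assoc, lamp_sh, mul_assoc]
    have e2 : g * lamp q v * sh (-1) = g * sh (-1) * lamp (q + 1) v := by
      rw [mul_assoc, lamp_sh, mul_assoc]
      simp
    rw [e1, e2]
    have h1 := ih (g * sh 1) (q - 1) v
    have h2 := ih (g * sh (-1)) (q + 1) v
    by_cases hq : q = 0
    · subst hq
      rw [if_pos rfl]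
      have h3 : ∑ ℓ : L, ψ (g * lamp 0 v * lamp 0 ℓ) = ∑ ℓ : L, ψ (g * lamp 0 ℓ) := by
        simp_rw [mul_assoc, lamp_mul]
        exact Fintype.sum_equiv (Equiv.mulLeft v) _ _ (fun ℓ => rfl)
      rw [h3]
      have h4 : ∑ ℓ : L, ψ (g * lamp 0 ℓ) + ψ (g * sh 1 * lamp (0 - 1) v) +
          ψ (g * sh (-1) * lamp (0 + 1) v) -
          (∑ ℓ : L, ψ (g * lamp 0 ℓ) + ψ (g * sh 1) + ψ (g * sh (-1))) =
          (ψ (g * sh 1 * lamp (0 - 1) v) - ψ (g * sh 1)) +
          (ψ (g * sh (-1) * lamp (0 + 1) v) - ψ (g * sh (-1))) := by ring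
      rw [h4]
      refine (abs_add_le _ _).trans ?_
      linarith
    · rw [if_neg hq]
      have h3 : |∑ ℓ : L, ψ (g * lamp q v * lamp 0 ℓ) - ∑ ℓ : L, ψ (g * lamp 0 ℓ)| ≤
          Fintype.card L * (2 * hh (Fintype.card L) n q) := by
        rw [← Finset.sum_sub_distrib]
        refine (Finset.abs_sum_le_sum_abs _ _).trans ?_
        calc _ ≤ ∑ _ℓ : L, 2 * hh (Fintype.card L) n q := by
              refine Finset.sum_le_sum (fun ℓ _ => ?_)
              rw [mul_assoc, lamp_comm hq, ← mul_assoc]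
              exact ih _ q v
          _ = _ := by rw [Finset.sum_const, Finset.card_univ, nsmul_eq_mul]
      have h4 : ∑ ℓ : L, ψ (g * lamp q v * lamp 0 ℓ) + ψ (g * sh 1 * lamp (q - 1) v) +
          ψ (g * sh (-1) * lamp (q + 1) v) -
          (∑ ℓ : L, ψ (g * lamp 0 ℓ) + ψ (g * sh 1) + ψ (g * sh (-1))) =
          (∑ ℓ : L, ψ (g * lamp q v * lamp 0 ℓ) - ∑ ℓ : L, ψ (g * lamp 0 ℓ)) +
          (ψ (g * sh 1 * lamp (q - 1) v) - ψ (g * sh 1)) +
          (ψ (g * sh (-1) * lamp (q + 1) v) - ψ (g * sh (-1))) := by ring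
      rw [h4]
      refine (abs_add_three _ _ _).trans ?_
      linarith

/-- The total variation bound. -/
noncomputable def eps (m : ℝ) (K n : ℕ) : ℝ := ∑ i ∈ Finset.range K, 2 * hh m n i

theorem tendsto_eps {m : ℝ} (hm : 0 < m) (K : ℕ) : Tendsto (eps m K) atTop (𝓝 0) := by
  have : (0 : ℝ) = ∑ i ∈ Finset.range K, (2 * 0 : ℝ) := by simp
  unfold eps
  rw [this]
  exact tendsto_finsetSum _ (fun i _ => (tendsto_hh hm i).const_mul 2)

theorem bs_bound {φ : Wr L → ℝ} (hφ : ∀ g, |φ g| ≤ 1) (n K : ℕ) (v : ℤ → L) :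
    |((op (stepS (L := L)))^[n] φ) (bs K v) - ((op (stepS (L := L)))^[n] φ) 1| ≤
      eps (Fintype.card L) K n := by
  induction K with
  | zero => simp [bs_zero, eps]
  | succ K ih =>
    have h1 := lamp_bound hφ n (bs K v) K (v K)
    rw [← bs_succ] at h1
    unfold eps at ih ⊢
    rw [Finset.sum_range_succ]
    calc _ ≤ |((op (stepS (L := L)))^[n] φ) (bs (K + 1) v) - ((op (stepS (L := L)))^[n] φ) (bs K v)| +
          |((op (stepS (L := L)))^[n] φ) (bs K v) - ((op (stepS (L := L)))^[n] φ) 1| :=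
          abs_sub_le _ _ _
      _ ≤ _ := by linarith

theorem op_trans {G Ω : Type*} [Group G] [Fintype Ω] (σ : Ω → G) (n : ℕ) (φ : G → ℝ) (g h : G) :
    ((op σ)^[n] (fun x => φ (g * x))) h = ((op σ)^[n] φ) (g * h) := by
  induction n generalizing φ h with
  | zero => rfl
  | succ n ih =>
    rw [Function.iterate_succ_apply, Function.iterate_succ_apply]
    have : op σ (fun x => φ (g * x)) = fun x => (op σ φ) (g * x) := by
      funext x
      unfold op
      simp only [mul_assoc]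
    rw [this, ih]

/-- The law after `n` steps of the symmetric walk. -/
noncomputable def lawS (L : Type*) [Group L] [Fintype L] (n : ℕ) : Wr L →₀ ℝ :=
  law (unif (stepS (L := L))) n

theorem E_lawS (n : ℕ) (φ : Wr L → ℝ) : E (lawS L n) φ = ((op (stepS (L := L)))^[n] φ) 1 :=
  E_law_unif _ _ _

theorem lawS_nonneg (n : ℕ) (g : Wr L) : 0 ≤ lawS L n g := law_nonneg (unif_nonneg _) n g

theorem lawS_one (n : ℕ) : E (lawS L n) (fun _ => 1) = 1 := E_law_one (E_unif_one _) n

theorem E_bs_le {φ : Wr L → ℝ} (hφ : ∀ g, |φ g| ≤ 1) (n K : ℕ) (v : ℤ → L) :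
    E (lawS L n) φ ≤ E (lawS L n) (fun x => φ (bs K v * x)) + eps (Fintype.card L) K n := by
  rw [E_lawS, E_lawS, op_trans, mul_one]
  have := (abs_le.1 (bs_bound hφ n K v)).1
  linarith

/-- Invariance under inversion. -/
theorem E_inv (n : ℕ) (φ : Wr L → ℝ) : E (lawS L n) (fun x => φ x⁻¹) = E (lawS L n) φ := by
  let Q : (Wr L → ℝ) → (Wr L → ℝ) := fun φ g =>
    (∑ ℓ : L, φ (lamp 0 ℓ * g) + φ (sh 1 * g) + φ (sh (-1) * g)) / ((Fintype.card L : ℝ) + 2)
  have hlinv : ∀ ℓ : L, (lamp 0 ℓ)⁻¹ = lamp 0 ℓ⁻¹ := by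
    intro ℓ
    rw [inv_eq_iff_mul_eq_one, lamp_mul, mul_inv_cancel, lamp_one]
  have hs1 : (sh 1 : Wr L)⁻¹ = sh (-1) := by ext p <;> simp
  have hs2 : (sh (-1) : Wr L)⁻¹ = sh 1 := by ext p <;> simp
  have hPQ : ∀ φ : Wr L → ℝ, op (stepS (L := L)) (fun x => φ x⁻¹) = fun x => (Q φ) x⁻¹ := by
    intro φ
    funext g
    rw [op_stepS]
    simp only [Q, mul_inv_rev, hlinv, hs1, hs2]
    congr 1
    have : ∑ ℓ : L, φ (lamp 0 ℓ⁻¹ * g⁻¹) = ∑ ℓ : L, φ (lamp 0 ℓ * g⁻¹) :=
      Fintype.sum_equiv (Equiv.inv L) _ _ (fun ℓ => rfl)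
    rw [this]
    ring
  have hcomm : ∀ φ : Wr L → ℝ, op (stepS (L := L)) (Q φ) = Q (op (stepS (L := L)) φ) := by
    intro φ
    funext g
    simp only [op_stepS, Q, Finset.sum_add_distrib, ← Finset.sum_div, mul_assoc]
    rw [Finset.sum_comm]
    ring
  have hagree : ∀ φ : Wr L → ℝ, op (stepS (L := L)) φ 1 = Q φ 1 := by
    intro φ
    simp only [op_stepS, Q, mul_one, one_mul]
  have hiter : ∀ (n : ℕ) (φ : Wr L → ℝ), ((op (stepS (L := L)))^[n] (fun x => φ x⁻¹)) =
      fun x => (Q^[n] φ) x⁻¹ := by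
    intro n
    induction n with
    | zero => intro φ; rfl
    | succ n ih =>
      intro φ
      rw [Function.iterate_succ_apply, Function.iterate_succ_apply, hPQ, ih]
  have hcomm' : ∀ (n : ℕ) (φ : Wr L → ℝ), (op (stepS (L := L)))^[n] (Q φ) =
      Q ((op (stepS (L := L)))^[n] φ) := by
    intro n
    induction n with
    | zero => intro φ; rfl
    | succ n ih =>
      intro φ
      rw [Function.iterate_succ_apply, Function.iterate_succ_apply, hcomm, ih]
  have hone : ∀ (n : ℕ) (φ : Wr L → ℝ), ((op (stepS (L := L)))^[n] φ) 1 = (Q^[n] φ) 1 := by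
    intro n
    induction n with
    | zero => intro φ; rfl
    | succ n ih =>
      intro φ
      rw [Function.iterate_succ_apply', hagree, ← hcomm', ih]
      rfl
  rw [E_lawS, E_lawS, hiter, hone]
  simp

/-- Positions. -/
theorem op_pos (n : ℕ) (ψ : ℤ → ℝ) (g : Wr L) :
    ((op (stepS (L := L)))^[n] (fun x => ψ x.a)) g = ((T (Fintype.card L))^[n] ψ) g.a := by
  induction n generalizing ψ with
  | zero => rfl
  | succ n ih =>
    rw [Function.iterate_succ_apply, Function.iterate_succ_apply]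
    have : op (stepS (L := L)) (fun x => ψ x.a) = fun x => (T (Fintype.card L) ψ) x.a := by
      funext x
      rw [op_stepS, T_apply]
      simp only [mul_a, lamp_a, sh_a, add_zero, Finset.sum_const, Finset.card_univ, nsmul_eq_mul]
      rfl
    rw [this, ih]

/-- The probability that the position is in `(-K, K)`. -/
noncomputable def small (L : Type*) [Group L] [Fintype L] (K n : ℕ) : ℝ :=
  E (lawS L n) (fun x => if |x.a| < K then 1 else 0)

theorem tendsto_small (K : ℕ) : Tendsto (small L K) atTop (𝓝 0) := by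
  have hm : (0 : ℝ) < Fintype.card L := card_pos'
  have h1 : ∀ n, small L K n = ∑ b ∈ Finset.Ioo (-(K : ℤ)) K,
      ((T (Fintype.card L))^[n] (fun j => if j = b then (1 : ℝ) else 0)) 0 := by
    intro n
    unfold small
    rw [E_lawS]
    have := op_pos (L := L) n (fun j => if |j| < K then (1 : ℝ) else 0) 1
    rw [this, one_a, ← T_sum]
    have h2 : (fun j : ℤ => if |j| < K then (1 : ℝ) else 0) =
        fun j => ∑ b ∈ Finset.Ioo (-(K : ℤ)) K, (if j = b then (1 : ℝ) else 0) := by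
      funext j
      rw [Finset.sum_ite_eq]
      simp only [Finset.mem_Ioo, abs_lt]
    rw [h2]
  rw [funext h1]
  have h3 := tendsto_finsetSum (Finset.Ioo (-(K : ℤ)) (K : ℤ))
    (fun b _ => tendsto_T_single (m := (Fintype.card L : ℝ)) hm b)
  rw [Finset.sum_const_zero] at h3
  exact h3

/-! ### The law is rarely satisfied -/

/-- The restriction of the commutator to `[0, K)`. -/
def res (K : ℕ) (x y : Wr L) : Fin K → L := fun p => (⁅x, y⁆).f ((p : ℕ) : ℤ)

theorem res_bs {K : ℕ} {x : Wr L} (hx : ¬ |x.a| < K) (y : Wr L) (v : ℤ → L) :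
    res K x (bs K v * y) = fun p => res K x y p * (v ((p : ℕ) : ℤ))⁻¹ := by
  funext p
  unfold res
  rw [comm_f, comm_f]
  have hp := p.2
  simp only [mul_f, bs_f, bs_a, mul_a, sub_zero, zero_add]
  rw [if_neg, if_pos]
  · simp only [one_mul, mul_inv_rev, mul_assoc]
  · constructor <;> omega
  · rintro ⟨h1, h2⟩
    apply hx
    rw [abs_lt]
    constructor <;> omega

theorem E_res_le {K : ℕ} {x : Wr L} (hx : ¬ |x.a| < K) (n : ℕ) {Φ : (Fin K → L) → ℝ}
    (hΦ : ∀ u, |Φ u| ≤ 1) :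
    E (lawS L n) (fun y => Φ (res K x y)) ≤
      (Fintype.card (Fin K → L) : ℝ)⁻¹ * ∑ u : Fin K → L, Φ u + eps (Fintype.card L) K n := by
  classical
  have hcard : (0 : ℝ) < Fintype.card (Fin K → L) := by exact_mod_cast Fintype.card_pos
  have h1 : ∀ v : Fin K → L, E (lawS L n) (fun y => Φ (res K x y)) ≤
      E (lawS L n) (fun y => Φ (fun p => res K x y p * (v p)⁻¹)) + eps (Fintype.card L) K n := by
    intro v
    let v' : ℤ → L := fun p => if h : 0 ≤ p ∧ p < K then v ⟨p.toNat, by omega⟩ else 1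
    have hv' : ∀ p : Fin K, v' ((p : ℕ) : ℤ) = v p := by
      intro p
      have hp : (0 : ℤ) ≤ ((p : ℕ) : ℤ) ∧ ((p : ℕ) : ℤ) < K := by have := p.2; omega
      simp only [v', dif_pos hp]
      rfl
    have h2 := E_bs_le (L := L) (φ := fun y => Φ (res K x y)) (fun y => hΦ _) n K v'
    simp only [res_bs hx, hv'] at h2
    exact h2
  have h2 : ∑ v : Fin K → L, E (lawS L n) (fun y => Φ (res K x y)) ≤
      ∑ v : Fin K → L, (E (lawS L n) (fun y => Φ (fun p => res K x y p * (v p)⁻¹)) +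
        eps (Fintype.card L) K n) := Finset.sum_le_sum (fun v _ => h1 v)
  rw [Finset.sum_const, Finset.card_univ, nsmul_eq_mul, Finset.sum_add_distrib, Finset.sum_const,
    Finset.card_univ, nsmul_eq_mul, ← E_sum_fun] at h2
  have h3 : (fun y => ∑ v : Fin K → L, Φ (fun p => res K x y p * (v p)⁻¹)) =
      fun _ => (∑ u : Fin K → L, Φ u) := by
    funext y
    let e : (Fin K → L) ≃ (Fin K → L) := (Equiv.inv _).trans (Equiv.mulLeft (res K x y))
    exact Fintype.sum_equiv e _ _ (fun v => rfl)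
  rw [h3, E_const, lawS_one, one_mul] at h2
  have h4 : E (lawS L n) (fun y => Φ (res K x y)) =
      (Fintype.card (Fin K → L) : ℝ)⁻¹ * ((Fintype.card (Fin K → L) : ℝ) *
        E (lawS L n) (fun y => Φ (res K x y))) := by
    field_simp
  rw [h4]
  calc _ ≤ (Fintype.card (Fin K → L) : ℝ)⁻¹ * (∑ u : Fin K → L, Φ u +
        (Fintype.card (Fin K → L) : ℝ) * eps (Fintype.card L) K n) := by
        apply mul_le_mul_of_nonneg_left h2 (by positivity)
    _ = _ := by field_simp

theorem E_E_res_le {K : ℕ} (n : ℕ) {Φ : (Fin K → L) → ℝ} (h0 : ∀ u, 0 ≤ Φ u)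
    (h1 : ∀ u, Φ u ≤ 1) :
    E (lawS L n) (fun x => E (lawS L n) (fun y => Φ (res K x y))) ≤
      (Fintype.card (Fin K → L) : ℝ)⁻¹ * ∑ u : Fin K → L, Φ u + eps (Fintype.card L) K n +
        small L K n := by
  classical
  have hcard : (0 : ℝ) < Fintype.card (Fin K → L) := by exact_mod_cast Fintype.card_pos
  have heps : 0 ≤ eps (Fintype.card L) K n :=
    Finset.sum_nonneg (fun i _ => mul_nonneg (by norm_num) (hh_nonneg card_pos' _ _))
  have hsum : 0 ≤ ∑ u : Fin K → L, Φ u := Finset.sum_nonneg (fun u _ => h0 u)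
  set B : ℝ := (Fintype.card (Fin K → L) : ℝ)⁻¹ * ∑ u : Fin K → L, Φ u +
    eps (Fintype.card L) K n with hB
  have hB0 : 0 ≤ B := by positivity
  have key : ∀ x : Wr L, E (lawS L n) (fun y => Φ (res K x y)) ≤
      B + (if |x.a| < K then (1 : ℝ) else 0) := by
    intro x
    by_cases hx : |x.a| < K
    · rw [if_pos hx]
      have : E (lawS L n) (fun y => Φ (res K x y)) ≤ E (lawS L n) (fun _ => 1) :=
        E_mono (lawS_nonneg n) (fun y => h1 _)
      rw [lawS_one] at this
      linarith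
    · rw [if_neg hx, add_zero]
      exact E_res_le hx n (fun u => by rw [abs_of_nonneg (h0 u)]; exact h1 u)
  refine (E_mono (lawS_nonneg n) key).trans ?_
  rw [E_add_fun, E_const, lawS_one, one_mul]
  rfl

end symm

end Q27.Walk
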